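import Mathlib
import Pool.Agent.Helper71.QU.FINA

/-!
# Averages over two nested partitions
-/

set_option linter.all false
set_option autoImplicit false

namespace Pool.Agent.Helper65.Sf

open Finset Pool.Agent.Helper71.QU

section

variable {V β β' β'' : Type*} [Fintype V] [DecidableEq β] [DecidableEq β'] [DecidableEq β'']
variable (π : V → β) (π' : V → β') (π'' : V → β'')

/-- `φ` is constant on the classes of `π`. -/
def Meas (φ : V → ℝ) : Prop := ∀ x y, π x = π y → φ x = φ y

omit [Fintype V] [DecidableEq β] in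
lemma Meas.mono {π : V → β} {π' : V → β'} (hr : ∀ x y, π' x = π' y → π x = π y) {φ : V → ℝ}
    (h : Meas π φ) : Meas π' φ := fun x y hxy => h x y (hr x y hxy)

lemma meas_av (f : V → ℝ) : Meas π (fin_av π f) := fun x y h => fin_av_congr π f h

/-- Measurable factors come out of the average. -/
lemma av_mul {φ : V → ℝ} (h : Meas π φ) (f : V → ℝ) (x : V) :
    fin_av π (fun y => φ y * f y) x = φ x * fin_av π f x := by
  unfold fin_av
  rw [mul_div_assoc', mul_sum]
  congr 1
  refine sum_congr rfl fun y hy => ?_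
  show φ y * f y = φ x * f y
  rw [h y x ((fin_mem_Q π).1 hy)]

lemma av_meas {φ : V → ℝ} (h : Meas π φ) (x : V) : fin_av π φ x = φ x := by
  have h1 := av_mul π h (fun _ => (1 : ℝ)) x
  rw [fin_av_one] at h1
  simpa using h1

/-- The tower property. -/
lemma av_av (hr : ∀ x y, π' x = π' y → π x = π y) (f : V → ℝ) (x : V) :
    fin_av π (fin_av π' f) x = fin_av π f x := by
  classical
  have h1 := fin_av_symm π' f (fun y => if y ∈ fin_Q π x then (1 : ℝ) else 0)
  have h2 : fin_av π' (fun y => if y ∈ fin_Q π x then (1 : ℝ) else 0) =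
      fun y => if y ∈ fin_Q π x then (1 : ℝ) else 0 := by
    funext y
    refine av_meas π' ?_ y
    intro a b hab
    have : π a = π b := hr a b hab
    simp only [fin_mem_Q, this]
  rw [h2] at h1
  simp only [mul_ite, mul_one, mul_zero] at h1
  rw [← sum_filter, ← sum_filter] at h1
  have h3 : univ.filter (fun y => y ∈ fin_Q π x) = fin_Q π x := by
    ext; simp
  rw [h3] at h1
  unfold fin_av at h1 ⊢
  rw [h1]

lemma sum_av_mul_av (hr : ∀ x y, π' x = π' y → π x = π y) (f : V → ℝ) :
    ∑ x, fin_av π' f x * fin_av π f x = ∑ x, fin_av π f x ^ 2 := by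
  rw [fin_av_symm π', fin_sum_av_sq]
  refine sum_congr rfl fun x _ => ?_
  rw [av_meas π' ((meas_av π f).mono hr)]

/-- Pythagoras for nested partitions. -/
lemma pyth (hr : ∀ x y, π' x = π' y → π x = π y) (f : V → ℝ) :
    ∑ x, (fin_av π' f x - fin_av π f x) ^ 2 =
      ∑ x, fin_av π' f x ^ 2 - ∑ x, fin_av π f x ^ 2 := by
  have h1 := sum_av_mul_av π π' hr f
  have h2 : ∑ x, (fin_av π' f x - fin_av π f x) ^ 2 =
      ∑ x, fin_av π' f x ^ 2 - 2 * ∑ x, fin_av π' f x * fin_av π f x +
        ∑ x, fin_av π f x ^ 2 := by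
    rw [mul_sum, ← sum_sub_distrib, ← sum_add_distrib]
    refine sum_congr rfl fun x _ => ?_
    ring
  rw [h2, h1]; ring

/-- Pythagoras for one partition. -/
lemma pyth1 (f : V → ℝ) :
    ∑ x, (f x - fin_av π f x) ^ 2 = ∑ x, f x ^ 2 - ∑ x, fin_av π f x ^ 2 := by
  have h1 := fin_sum_av_sq π f
  have h2 : ∑ x, (f x - fin_av π f x) ^ 2 =
      ∑ x, f x ^ 2 - 2 * ∑ x, f x * fin_av π f x + ∑ x, fin_av π f x ^ 2 := by
    rw [mul_sum, ← sum_sub_distrib, ← sum_add_distrib]
    refine sum_congr rfl fun x _ => ?_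
    ring
  rw [h2, ← h1]; ring

/-- Cauchy-Schwarz in a class. -/
lemma av_sq_le (f : V → ℝ) (x : V) : fin_av π f x ^ 2 ≤ fin_av π (fun y => f y ^ 2) x := by
  unfold fin_av
  have hp := fin_Q_pos π x
  have h := sq_sum_le_card_mul_sum_sq (s := fin_Q π x) (f := f)
  rw [div_pow, div_le_div_iff₀ (by positivity) hp]
  nlinarith

lemma av_avsub (hr : ∀ x y, π' x = π' y → π x = π y) (f : V → ℝ) (x : V) :
    fin_av π' (fun y => f y - fin_av π' f y) x = 0 := by
  rw [fin_av_sub, av_meas π' (meas_av π' f)]; ring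

/-- The covariance splits. -/
lemma cov_split (hr : ∀ x y, π' x = π' y → π x = π y) (f1 f2 : V → ℝ) (x : V) :
    fin_av π (fun y => (f1 y - fin_av π f1 y) * (f2 y - fin_av π f2 y)) x =
      fin_av π (fun y => (f1 y - fin_av π' f1 y) * (f2 y - fin_av π' f2 y)) x +
      fin_av π (fun y => (fin_av π' f1 y - fin_av π f1 y) * (fin_av π' f2 y - fin_av π f2 y)) x := by
  have key : ∀ p q : V → ℝ, fin_av π (fun y => (fin_av π' q y - fin_av π q y) *
      (p y - fin_av π' p y)) x = 0 := by
    intro p q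
    have hm : Meas π' (fun y => fin_av π' q y - fin_av π q y) := by
      intro a b hab
      have h1 := meas_av π' q a b hab
      have h2 := meas_av π q a b (hr a b hab)
      simp only [h1, h2]
    rw [← av_av π π' hr]
    have : fin_av π' (fun y => (fin_av π' q y - fin_av π q y) * (p y - fin_av π' p y)) =
        fun _ => 0 := by
      funext z
      rw [av_mul π' hm, av_avsub π π' hr]; ring
    rw [this, fin_av_const]
  have h : (fun y => (f1 y - fin_av π f1 y) * (f2 y - fin_av π f2 y)) =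
      fun y => (((f1 y - fin_av π' f1 y) * (f2 y - fin_av π' f2 y) +
        (fin_av π' f1 y - fin_av π f1 y) * (fin_av π' f2 y - fin_av π f2 y)) +
        ((fin_av π' f2 y - fin_av π f2 y) * (f1 y - fin_av π' f1 y) +
        (fin_av π' f1 y - fin_av π f1 y) * (f2 y - fin_av π' f2 y))) := by
    funext y; ring
  rw [h, fin_av_add, fin_av_add, fin_av_add, key f1 f2, key f2 f1]; ring

lemma cov_eq (f1 f2 : V → ℝ) (x : V) :
    fin_av π (fun y => (f1 y - fin_av π f1 y) * (f2 y - fin_av π f2 y)) x =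
      fin_av π (fun y => f1 y * f2 y) x - fin_av π f1 x * fin_av π f2 x := by
  have m1 := meas_av π f1
  have m2 := meas_av π f2
  have h : (fun y => (f1 y - fin_av π f1 y) * (f2 y - fin_av π f2 y)) =
      fun y => ((f1 y * f2 y - fin_av π f1 y * f2 y) -
        (fin_av π f2 y * f1 y - fin_av π f1 y * fin_av π f2 y)) := by
    funext y; ring
  rw [h, fin_av_sub, fin_av_sub, fin_av_sub, av_mul π m1, av_mul π m2]
  have : (fun y => fin_av π f1 y * fin_av π f2 y) = fun y => fin_av π f1 y * fin_av π f2 y := rfl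
  rw [av_mul π m1, av_meas π m2]; ring

/-- The gain in energy when the partition becomes fine enough to see `f2`. -/
lemma gain (hr : ∀ x y, π' x = π' y → π x = π y) (hr' : ∀ x y, π'' x = π'' y → π' x = π' y)
    (f1 f2 : V → ℝ) (hf : Meas π'' f2) (hb : ∀ x, |f2 x - fin_av π' f2 x| ≤ 1) :
    ∑ x, fin_av π (fun y => (f1 y - fin_av π' f1 y) * (f2 y - fin_av π' f2 y)) x ^ 2 ≤
      ∑ x, fin_av π'' f1 x ^ 2 - ∑ x, fin_av π' f1 x ^ 2 := by
  rw [← pyth π' π'' hr']
  have hr2 : ∀ x y, π'' x = π'' y → π x = π y := fun x y h => hr x y (hr' x y h)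
  have hm : Meas π'' (fun y => f2 y - fin_av π' f2 y) := by
    intro a b hab
    have h1 := hf a b hab
    have h2 := meas_av π' f2 a b (hr' a b hab)
    simp only [h1, h2]
  have h1 : ∀ x, fin_av π (fun y => (f1 y - fin_av π' f1 y) * (f2 y - fin_av π' f2 y)) x =
      fin_av π (fun y => (f2 y - fin_av π' f2 y) * (fin_av π'' f1 y - fin_av π' f1 y)) x := by
    intro x
    rw [← av_av π π'' hr2]
    have : fin_av π'' (fun y => (f1 y - fin_av π' f1 y) * (f2 y - fin_av π' f2 y)) =
        fun y => (f2 y - fin_av π' f2 y) * (fin_av π'' f1 y - fin_av π' f1 y) := by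
      funext z
      have e : (fun y => (f1 y - fin_av π' f1 y) * (f2 y - fin_av π' f2 y)) =
          fun y => (f2 y - fin_av π' f2 y) * (f1 y - fin_av π' f1 y) := by
        funext y; ring
      rw [e, av_mul π'' hm, fin_av_sub, av_meas π'' ((meas_av π' f1).mono hr')]
    rw [this]
  have h2 : ∀ x, fin_av π (fun y => (f1 y - fin_av π' f1 y) * (f2 y - fin_av π' f2 y)) x ^ 2 ≤
      fin_av π (fun y => (fin_av π'' f1 y - fin_av π' f1 y) ^ 2) x := by
    intro x
    rw [h1]
    refine (av_sq_le π _ x).trans (fin_av_mono π (fun y => ?_) x)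
    have h3 := abs_le.1 (hb y)
    have h4 : (f2 y - fin_av π' f2 y) ^ 2 ≤ 1 := by nlinarith [h3.1, h3.2]
    rw [mul_pow]
    nlinarith [sq_nonneg (fin_av π'' f1 y - fin_av π' f1 y)]
  refine (sum_le_sum fun x _ => h2 x).trans (le_of_eq ?_)
  rw [fin_sum_av]

end

end Pool.Agent.Helper65.Sf
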