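import Mathlib
import Pool.Agent.Helper65.Sf.Av

/-!
# Partial triple systems, energies of partitions and the choice of two nested partitions
-/

set_option linter.all false
set_option autoImplicit false

namespace Pool.Agent.Helper65.Sf

open Finset Pool.Agent.Helper71.QU

/-- A partial triple system on `V` without four triples on seven points: `g` is the 0/1 valued
adjacency, `t x y` the third point of the triple of `x` and `y`. -/
structure PS (V : Type*) where
  g : V → V → ℝ
  t : V → V → V
  g01 : ∀ x y, g x y = 0 ∨ g x y = 1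
  gs : ∀ x y, g x y = g y x
  gi : ∀ x, g x x = 0
  tt : ∀ x y, t x (t x y) = y
  gt : ∀ x y, g x (t x y) = g x y
  tc : ∀ x y, g x y = 1 → t y x = t x y
  free : ∀ v x y, g v x = 1 → g v y = 1 → y ≠ x → y ≠ t v x →
    g x y + g x (t v y) + g (t v x) y + g (t v x) (t v y) ≤ 1

section

variable {V : Type*} [Fintype V] [DecidableEq V] (P : PS V)

omit [Fintype V] [DecidableEq V] in
lemma g0 (x y : V) : 0 ≤ P.g x y := by
  rcases P.g01 x y with h | h <;> rw [h] <;> norm_num

omit [Fintype V] [DecidableEq V] in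
lemma g1 (x y : V) : P.g x y ≤ 1 := by
  rcases P.g01 x y with h | h <;> rw [h] <;> norm_num

/-- Adjacency to the points of `S`. -/
noncomputable def cell (S : Finset V) : V → (↥S → Bool) := fun x s => decide (P.g s x = 1)

omit [Fintype V] [DecidableEq V] in
lemma cell_ref {S S' : Finset V} (h : S ⊆ S') (x y : V) (hxy : cell P S' x = cell P S' y) :
    cell P S x = cell P S y := by
  funext s
  have := congrFun hxy ⟨s.1, h s.2⟩
  exact this

omit [Fintype V] [DecidableEq V] in
lemma cell_meas {S : Finset V} {u : V} (hu : u ∈ S) : Meas (cell P S) (P.g u) := by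
  intro x y hxy
  have h := congrFun hxy ⟨u, hu⟩
  unfold cell at h
  simp only [decide_eq_decide] at h
  rcases P.g01 u x with h1 | h1 <;> rcases P.g01 u y with h2 | h2
  · rw [h1, h2]
  · have := h.2 h2; rw [this, h2]
  · have := h.1 h1; rw [h1, this]
  · rw [h1, h2]

/-- The energy. -/
noncomputable def En (S : Finset V) : ℝ := ∑ v, ∑ x, fin_av (cell P S) (P.g v) x ^ 2

lemma av0 (S : Finset V) (v x : V) : 0 ≤ fin_av (cell P S) (P.g v) x :=
  fin_av_nonneg _ (fun y => g0 P v y) x

lemma av1 (S : Finset V) (v x : V) : fin_av (cell P S) (P.g v) x ≤ 1 := by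
  have h := fin_av_mono (cell P S) (g := P.g v) (h := fun _ => 1) (fun y => g1 P v y) x
  rwa [fin_av_const] at h

lemma En_le (S : Finset V) : En P S ≤ (Fintype.card V : ℝ) ^ 2 := by
  unfold En
  calc ∑ v, ∑ x, fin_av (cell P S) (P.g v) x ^ 2 ≤ ∑ v : V, ∑ x : V, (1 : ℝ) := by
        refine sum_le_sum fun v _ => sum_le_sum fun x _ => ?_
        have h0 := av0 P S v x
        have h1 := av1 P S v x
        nlinarith
    _ = (Fintype.card V : ℝ) ^ 2 := by
        simp only [sum_const, card_univ, nsmul_eq_mul, mul_one]; ring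

lemma En_nonneg (S : Finset V) : 0 ≤ En P S :=
  sum_nonneg fun v _ => sum_nonneg fun x _ => sq_nonneg _

/-- Adding points until no further point gains much energy. -/
lemma inner (hV : 0 < Fintype.card V) (S : Finset V) {γ : ℝ} (hγ : 0 < γ) :
    ∃ S' : Finset V, S ⊆ S' ∧ (S'.card : ℝ) ≤ S.card + 1 / γ ∧
      ∀ u, En P (insert u S') ≤ En P S' + γ * (Fintype.card V : ℝ) ^ 2 := by
  classical
  have hn : (0 : ℝ) < (Fintype.card V : ℝ) ^ 2 := by
    have : (0 : ℝ) < Fintype.card V := by exact_mod_cast hV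
    positivity
  set F : Finset (Finset V) := univ.filter (fun T => S ⊆ T ∧
    En P S + γ * (Fintype.card V : ℝ) ^ 2 * ((T.card : ℝ) - S.card) ≤ En P T) with hF
  have hne : F.Nonempty := ⟨S, by rw [hF, mem_filter]; exact ⟨mem_univ _, Subset.refl _, by simp⟩⟩
  obtain ⟨S', hS', hmax⟩ := exists_max_image F card hne
  rw [hF, mem_filter] at hS'
  refine ⟨S', hS'.2.1, ?_, ?_⟩
  · have h1 := hS'.2.2
    have h2 := En_le P S'
    have h3 := En_nonneg P S
    have h4 : γ * (Fintype.card V : ℝ) ^ 2 * ((S'.card : ℝ) - S.card) ≤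
        (Fintype.card V : ℝ) ^ 2 := by linarith
    have h5 : ((S'.card : ℝ) - S.card) * γ ≤ 1 := by
      by_contra hc
      push Not at hc
      nlinarith
    have h6 : (S'.card : ℝ) - S.card ≤ 1 / γ := by
      rw [le_div_iff₀ hγ]; exact h5
    linarith
  · intro u
    by_contra hc
    push Not at hc
    have hu : u ∉ S' := by
      intro hu
      rw [insert_eq_of_mem hu] at hc
      nlinarith
    have h1 : insert u S' ∈ F := by
      rw [hF, mem_filter]
      refine ⟨mem_univ _, hS'.2.1.trans (subset_insert _ _), ?_⟩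
      rw [card_insert_of_notMem hu]
      push_cast
      have := hS'.2.2
      nlinarith
    have h2 := hmax _ h1
    rw [card_insert_of_notMem hu] at h2
    omega

/-- The bounds for the sizes. -/
noncomputable def MM (γ : ℕ → ℝ) : ℕ → ℕ
  | 0 => 0
  | i + 1 => MM γ i + ⌈1 / γ (MM γ i)⌉₊

lemma MM_mono (γ : ℕ → ℝ) : Monotone (MM γ) := by
  refine monotone_nat_of_le_succ fun i => ?_
  show MM γ i ≤ MM γ i + _
  omega

/-- Two nested sets of sample points. -/
lemma outer (hV : 0 < Fintype.card V) {δ : ℝ} (hδ : 0 < δ) (γ : ℕ → ℝ) (hγ : ∀ m, 0 < γ m)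
    (I : ℕ) (hI : 1 < I * δ) :
    ∃ i < I, ∃ S S' : Finset V, S ⊆ S' ∧ S.card ≤ MM γ i ∧
      En P S' ≤ En P S + δ * (Fintype.card V : ℝ) ^ 2 ∧
      ∀ u, En P (insert u S') ≤ En P S' + γ (MM γ i) * (Fintype.card V : ℝ) ^ 2 := by
  classical
  by_contra hcon
  push Not at hcon
  have hn : (0 : ℝ) < (Fintype.card V : ℝ) ^ 2 := by
    have : (0 : ℝ) < Fintype.card V := by exact_mod_cast hV
    positivity
  have key : ∀ i ≤ I, ∃ S : Finset V, S.card ≤ MM γ i ∧
      i * δ * (Fintype.card V : ℝ) ^ 2 ≤ En P S := by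
    intro i
    induction i with
    | zero => intro _; exact ⟨∅, by simp, by simp [En_nonneg]⟩
    | succ i ih =>
      intro hi
      obtain ⟨S, hS1, hS2⟩ := ih (by omega)
      obtain ⟨S', h1, h2, h3⟩ := inner P hV S (hγ (MM γ i))
      refine ⟨S', ?_, ?_⟩
      · show S'.card ≤ MM γ i + ⌈1 / γ (MM γ i)⌉₊
        have h4 : (S'.card : ℝ) ≤ ((MM γ i + ⌈1 / γ (MM γ i)⌉₊ : ℕ) : ℝ) := by
          push_cast
          have h5 : (S.card : ℝ) ≤ MM γ i := by exact_mod_cast hS1
          linarith [Nat.le_ceil (1 / γ (MM γ i))]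
        exact_mod_cast h4
      · by_contra hc
        push Not at hc
        obtain ⟨u, hu⟩ := hcon i (by omega) S S' h1 hS1 (by push_cast at hc; nlinarith)
        exact absurd (h3 u) (not_le.2 hu)
  obtain ⟨S, -, hS⟩ := key I le_rfl
  have := En_le P S
  nlinarith

end

end Pool.Agent.Helper65.Sf
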