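import Mathlib
import Pool.Agent.Helper65.Sf.Str

/-!
# Covariances in the classes
-/

set_option linter.all false
set_option autoImplicit false

namespace Pool.Agent.Helper65.Sf

open Finset Pool.Agent.Helper71.QU

section

variable {V : Type*} [Fintype V] [DecidableEq V] (P : PS V)

/-- The covariance of the neighbourhoods of `v` and `u` in the class of `x`, after averaging
over the classes of `S'`. -/
noncomputable def aa (S S' : Finset V) (v u x : V) : ℝ :=
  fin_av (cell P S) (fun y => (P.g v y - fin_av (cell P S') (P.g v) y) *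
    (P.g u y - fin_av (cell P S') (P.g u) y)) x

/-- The difference of the two averages. -/
noncomputable def kk (S S' : Finset V) (v x : V) : ℝ :=
  fin_av (cell P S') (P.g v) x - fin_av (cell P S) (P.g v) x

/-- The third point is an involution. -/
lemma invol (x : V) (F : V → ℝ) : ∑ y, P.g x y * F (P.t x y) = ∑ y, P.g x y * F y := by
  have h : Function.Involutive (P.t x) := fun y => P.tt x y
  have h1 := Equiv.sum_comp (h.toPerm) (fun y => P.g x y * F y)
  rw [← h1]
  refine sum_congr rfl fun y _ => ?_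
  simp only [Function.Involutive.coe_toPerm, P.gt]

lemma hb (S' : Finset V) (u x : V) : |P.g u x - fin_av (cell P S') (P.g u) x| ≤ 1 := by
  have h0 := av0 P S' u x
  have h1 := av1 P S' u x
  have h2 := g0 P u x
  have h3 := g1 P u x
  rw [abs_le]; constructor <;> linarith

lemma split {S S' : Finset V} (hS : S ⊆ S') (v u x : V) :
    aa P S S v u x = aa P S S' v u x +
      fin_av (cell P S) (fun y => kk P S S' v y * kk P S S' u y) x :=
  cov_split (cell P S) (cell P S') (cell_ref P hS) (P.g v) (P.g u) x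

lemma aa_gain {S S' : Finset V} (hS : S ⊆ S') (u : V) :
    ∑ v, ∑ x, aa P S S' v u x ^ 2 ≤ En P (insert u S') - En P S' := by
  unfold En
  rw [← sum_sub_distrib]
  refine sum_le_sum fun v _ => ?_
  exact gain (cell P S) (cell P S') (cell P (insert u S')) (cell_ref P hS)
    (cell_ref P (subset_insert u S')) (P.g v) (P.g u) (cell_meas P (mem_insert_self u S'))
    (fun x => hb P S' u x)

lemma aa_total {S S' : Finset V} (hS : S ⊆ S') {γ : ℝ}
    (hg : ∀ u, En P (insert u S') ≤ En P S' + γ * (Fintype.card V : ℝ) ^ 2) :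
    ∑ u, ∑ v, ∑ x, aa P S S' v u x ^ 2 ≤ γ * (Fintype.card V : ℝ) ^ 3 := by
  calc ∑ u, ∑ v, ∑ x, aa P S S' v u x ^ 2 ≤ ∑ u : V, γ * (Fintype.card V : ℝ) ^ 2 := by
        refine sum_le_sum fun u _ => ?_
        have := aa_gain P hS u
        linarith [hg u]
    _ = γ * (Fintype.card V : ℝ) ^ 3 := by
        rw [sum_const, card_univ, nsmul_eq_mul]; ring

lemma kk_total {S S' : Finset V} (hS : S ⊆ S') {δ : ℝ}
    (hE : En P S' ≤ En P S + δ * (Fintype.card V : ℝ) ^ 2) :
    ∑ v, ∑ x, kk P S S' v x ^ 2 ≤ δ * (Fintype.card V : ℝ) ^ 2 := by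
  have h : ∑ v, ∑ x, kk P S S' v x ^ 2 = En P S' - En P S := by
    unfold En
    rw [← sum_sub_distrib]
    exact sum_congr rfl fun v _ => pyth (cell P S) (cell P S') (cell_ref P hS) (P.g v)
  rw [h]; linarith

lemma aa_symm (S S' : Finset V) (v u x : V) : aa P S S' v u x = aa P S S' u v x := by
  unfold aa
  congr 1
  funext y
  ring

/-- `2 |a| ≤ p + a² / p`. -/
lemma amgm {a p : ℝ} (hp : 0 < p) : |a| ≤ (p + a ^ 2 / p) / 2 := by
  have h1 : a ^ 2 / p * p = a ^ 2 := div_mul_cancel₀ _ hp.ne'
  have h2 := sq_nonneg (p - |a|)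
  have h3 : |a| ^ 2 = a ^ 2 := sq_abs a
  have h4 : 2 * |a| * p ≤ (p + a ^ 2 / p) * p := by nlinarith
  have h5 := le_of_mul_le_mul_right h4 hp
  linarith

lemma aa_point {S S' : Finset V} {c : ℝ} (hc : 0 < c) (v u x : V) :
    |aa P S S' v u x| ≤ c / 2 * (1 / ((fin_Q (cell P S) x).card : ℝ)) +
      1 / (2 * c) * ∑ y, aa P S S' v u y ^ 2 := by
  have hq := fin_Q_pos (cell P S) x
  set q : ℝ := ((fin_Q (cell P S) x).card : ℝ) with hqd
  have h1 : q * aa P S S' v u x ^ 2 ≤ ∑ y, aa P S S' v u y ^ 2 := by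
    calc q * aa P S S' v u x ^ 2 = ∑ y ∈ fin_Q (cell P S) x, aa P S S' v u y ^ 2 := by
          rw [← nsmul_eq_mul, ← sum_const]
          refine sum_congr rfl fun y hy => ?_
          have : aa P S S' v u y = aa P S S' v u x :=
            fin_av_congr (cell P S) _ ((fin_mem_Q _).1 hy)
          rw [this]
      _ ≤ _ := sum_le_sum_of_subset_of_nonneg (subset_univ _) fun y _ _ => sq_nonneg _
  have h2 := amgm (a := aa P S S' v u x) (p := c / q) (by positivity)
  have h3 : aa P S S' v u x ^ 2 / (c / q) = 1 / c * (q * aa P S S' v u x ^ 2) := by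
    field_simp
  rw [h3] at h2
  have h4 : 1 / c * (q * aa P S S' v u x ^ 2) ≤ 1 / c * ∑ y, aa P S S' v u y ^ 2 :=
    mul_le_mul_of_nonneg_left h1 (by positivity)
  have h5 : c / 2 * (1 / q) = c / q / 2 := by field_simp
  have h6 : 1 / (2 * c) * ∑ y, aa P S S' v u y ^ 2 =
      (1 / c * ∑ y, aa P S S' v u y ^ 2) / 2 := by field_simp
  rw [h5, h6]
  linarith

/-- The covariances of the two ends of a pair in the class of the third point are small. -/
lemma R_bound (hV : 0 < Fintype.card V) {S S' : Finset V} (hS : S ⊆ S') {δ γ η : ℝ}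
    (hη : 0 < η) (hγ : 0 ≤ γ) (hK : 2 ^ S.card * γ ≤ η ^ 2)
    (hE : En P S' ≤ En P S + δ * (Fintype.card V : ℝ) ^ 2)
    (hg : ∀ u, En P (insert u S') ≤ En P S' + γ * (Fintype.card V : ℝ) ^ 2) :
    ∑ x, ∑ v, P.g x v * |aa P S S v (P.t x v) x| ≤ (δ + η) * (Fintype.card V : ℝ) ^ 2 := by
  set n : ℝ := (Fintype.card V : ℝ) with hn
  have hn0 : 0 < n := by rw [hn]; exact_mod_cast hV
  set K : ℝ := 2 ^ S.card with hKd
  have hK0 : 0 < K := by positivity
  -- the part inside the fine classes
  have h1 : ∑ x, ∑ v, P.g x v * fin_av (cell P S)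
      (fun y => |kk P S S' v y * kk P S S' (P.t x v) y|) x ≤ δ * n ^ 2 := by
    calc ∑ x, ∑ v, P.g x v * fin_av (cell P S)
          (fun y => |kk P S S' v y * kk P S S' (P.t x v) y|) x
        ≤ ∑ x, ∑ v, (P.g x v * (fin_av (cell P S) (fun y => kk P S S' v y ^ 2) x / 2) +
            P.g x v * (fin_av (cell P S) (fun y => kk P S S' (P.t x v) y ^ 2) x / 2)) := by
          refine sum_le_sum fun x _ => sum_le_sum fun v _ => ?_
          rw [← mul_add]
          refine mul_le_mul_of_nonneg_left ?_ (g0 P x v)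
          have h2 := fin_av_mono (cell P S) (g := fun y => |kk P S S' v y * kk P S S' (P.t x v) y|)
            (h := fun y => (1 / 2) * kk P S S' v y ^ 2 + (1 / 2) * kk P S S' (P.t x v) y ^ 2)
            (fun y => by
              rw [abs_mul]
              have := sq_nonneg (|kk P S S' v y| - |kk P S S' (P.t x v) y|)
              have e1 := sq_abs (kk P S S' v y)
              have e2 := sq_abs (kk P S S' (P.t x v) y)
              nlinarith) x
          rw [fin_av_add, fin_av_smul, fin_av_smul] at h2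
          linarith
      _ = ∑ x, ∑ v, P.g x v * fin_av (cell P S) (fun y => kk P S S' v y ^ 2) x := by
          refine sum_congr rfl fun x _ => ?_
          rw [sum_add_distrib, invol P x (fun w => fin_av (cell P S)
            (fun y => kk P S S' w y ^ 2) x / 2), ← sum_add_distrib]
          refine sum_congr rfl fun v _ => ?_
          ring
      _ ≤ ∑ x, ∑ v, fin_av (cell P S) (fun y => kk P S S' v y ^ 2) x := by
          refine sum_le_sum fun x _ => sum_le_sum fun v _ => ?_
          have h3 : 0 ≤ fin_av (cell P S) (fun y => kk P S S' v y ^ 2) x :=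
            fin_av_nonneg _ (fun y => sq_nonneg _) x
          have := g1 P x v
          nlinarith
      _ = ∑ v, ∑ x, kk P S S' v x ^ 2 := by
          rw [sum_comm]
          exact sum_congr rfl fun v _ => fin_sum_av _ _
      _ ≤ δ * n ^ 2 := kk_total P hS hE
  -- the part orthogonal to the fine classes
  have h2 : ∑ x, ∑ v, P.g x v * |aa P S S' v (P.t x v) x| ≤ η * n ^ 2 := by
    set c : ℝ := η * n / K with hc
    have hc0 : 0 < c := by positivity
    have e1 : ∑ x, ∑ v, P.g x v * (c / 2 * (1 / ((fin_Q (cell P S) x).card : ℝ))) ≤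
        η * n ^ 2 / 2 := by
      calc ∑ x, ∑ v, P.g x v * (c / 2 * (1 / ((fin_Q (cell P S) x).card : ℝ)))
          ≤ ∑ x, ∑ v : V, (c / 2 * (1 / ((fin_Q (cell P S) x).card : ℝ))) := by
            refine sum_le_sum fun x _ => sum_le_sum fun v _ => ?_
            have hq := fin_Q_pos (cell P S) x
            have h3 : 0 ≤ c / 2 * (1 / ((fin_Q (cell P S) x).card : ℝ)) := by positivity
            have := g1 P x v
            nlinarith
        _ = n * (c / 2) * ∑ x, 1 / ((fin_Q (cell P S) x).card : ℝ) := by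
            rw [mul_sum]
            refine sum_congr rfl fun x _ => ?_
            rw [sum_const, card_univ, nsmul_eq_mul]; ring
        _ ≤ n * (c / 2) * K := by
            refine mul_le_mul_of_nonneg_left ?_ (by positivity)
            have := fin_sum_inv (cell P S)
            refine this.trans (le_of_eq ?_)
            rw [hKd]
            simp
        _ = η * n ^ 2 / 2 := by
            rw [hc]; field_simp
    have e2 : ∑ x, ∑ v, P.g x v * (1 / (2 * c) * ∑ y, aa P S S' v (P.t x v) y ^ 2) ≤
        η * n ^ 2 / 2 := by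
      calc ∑ x, ∑ v, P.g x v * (1 / (2 * c) * ∑ y, aa P S S' v (P.t x v) y ^ 2)
          = ∑ v, ∑ x, P.g v x * (1 / (2 * c) * ∑ y, aa P S S' v (P.t v x) y ^ 2) := by
            rw [sum_comm]
            refine sum_congr rfl fun v _ => sum_congr rfl fun x _ => ?_
            rcases P.g01 v x with h | h
            · rw [P.gs x v, h]; ring
            · rw [P.gs x v, P.tc v x h]
        _ = ∑ v, ∑ x, P.g v x * (1 / (2 * c) * ∑ y, aa P S S' v x y ^ 2) := by
            refine sum_congr rfl fun v _ => ?_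
            exact invol P v (fun w => 1 / (2 * c) * ∑ y, aa P S S' v w y ^ 2)
        _ ≤ ∑ v, ∑ x, (1 / (2 * c) * ∑ y, aa P S S' v x y ^ 2) := by
            refine sum_le_sum fun v _ => sum_le_sum fun x _ => ?_
            have h3 : 0 ≤ 1 / (2 * c) * ∑ y, aa P S S' v x y ^ 2 :=
              mul_nonneg (by positivity) (sum_nonneg fun y _ => sq_nonneg _)
            have := g1 P v x
            nlinarith
        _ = 1 / (2 * c) * ∑ u, ∑ v, ∑ y, aa P S S' v u y ^ 2 := by
            rw [sum_comm, mul_sum]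
            refine sum_congr rfl fun u _ => ?_
            rw [mul_sum]
        _ ≤ 1 / (2 * c) * (γ * n ^ 3) :=
            mul_le_mul_of_nonneg_left (aa_total P hS hg) (by positivity)
        _ ≤ η * n ^ 2 / 2 := by
            have e3 : 1 / (2 * c) * (γ * n ^ 3) = (K * γ) * n ^ 2 / (2 * η) := by
              rw [hc]; field_simp
            rw [e3, div_le_iff₀ (by positivity)]
            have : K * γ * n ^ 2 ≤ η ^ 2 * n ^ 2 := mul_le_mul_of_nonneg_right hK (by positivity)
            nlinarith
    calc ∑ x, ∑ v, P.g x v * |aa P S S' v (P.t x v) x|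
        ≤ ∑ x, ∑ v, (P.g x v * (c / 2 * (1 / ((fin_Q (cell P S) x).card : ℝ))) +
            P.g x v * (1 / (2 * c) * ∑ y, aa P S S' v (P.t x v) y ^ 2)) := by
          refine sum_le_sum fun x _ => sum_le_sum fun v _ => ?_
          rw [← mul_add]
          exact mul_le_mul_of_nonneg_left (aa_point P hc0 v (P.t x v) x) (g0 P x v)
      _ ≤ η * n ^ 2 := by
          simp only [sum_add_distrib]
          linarith
  calc ∑ x, ∑ v, P.g x v * |aa P S S v (P.t x v) x|
      ≤ ∑ x, ∑ v, (P.g x v * |aa P S S' v (P.t x v) x| + P.g x v * fin_av (cell P S)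
          (fun y => |kk P S S' v y * kk P S S' (P.t x v) y|) x) := by
        refine sum_le_sum fun x _ => sum_le_sum fun v _ => ?_
        rw [← mul_add]
        refine mul_le_mul_of_nonneg_left ?_ (g0 P x v)
        rw [split P hS]
        refine (abs_add_le _ _).trans (add_le_add_right (fin_av_abs _ _ _) _)
    _ ≤ (δ + η) * n ^ 2 := by
        simp only [sum_add_distrib]
        linarith

/-- Weighted sums of the deviations are small. -/
lemma W_bound (hV : 0 < Fintype.card V) {S S' : Finset V} (hS : S ⊆ S') {δ γ s : ℝ}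
    (hs : 0 < s) (hγ : 0 ≤ γ) (hδs : δ ≤ s ^ 2) (hγs : γ ≤ s ^ 4)
    (hE : En P S' ≤ En P S + δ * (Fintype.card V : ℝ) ^ 2)
    (hg : ∀ u, En P (insert u S') ≤ En P S' + γ * (Fintype.card V : ℝ) ^ 2)
    (b : V → ℝ) (hb0 : ∀ v, 0 ≤ b v) (hb1 : ∀ v, b v ≤ 1) :
    ∑ x, |∑ v, b v * (P.g v x - fin_av (cell P S) (P.g v) x)| ≤
      2 * s * (Fintype.card V : ℝ) ^ 2 := by
  set n : ℝ := (Fintype.card V : ℝ) with hn
  have hn0 : 0 < n := by rw [hn]; exact_mod_cast hV
  have hc : ∀ c : ℝ, ∑ x : V, c = n * c := by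
    intro c; rw [sum_const, card_univ, nsmul_eq_mul]
  have h1 : ∑ x, |∑ v, b v * kk P S S' v x| ≤ s * n ^ 2 := by
    calc ∑ x, |∑ v, b v * kk P S S' v x|
        ≤ ∑ x, ∑ v, ((s + kk P S S' v x ^ 2 / s) / 2) := by
          refine sum_le_sum fun x _ => (abs_sum_le_sum_abs _ _).trans (sum_le_sum fun v _ => ?_)
          rw [abs_mul, abs_of_nonneg (hb0 v)]
          have h2 := amgm (a := kk P S S' v x) hs
          have h3 : b v * |kk P S S' v x| ≤ 1 * |kk P S S' v x| :=
            mul_le_mul_of_nonneg_right (hb1 v) (abs_nonneg _)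
          linarith
      _ = s * n ^ 2 / 2 + 1 / (2 * s) * ∑ v, ∑ x, kk P S S' v x ^ 2 := by
          rw [sum_comm (γ := V), mul_sum]
          have : ∀ v : V, ∑ x, ((s + kk P S S' v x ^ 2 / s) / 2) =
              n * (s / 2) + 1 / (2 * s) * ∑ x, kk P S S' v x ^ 2 := by
            intro v
            rw [← hc, mul_sum, ← sum_add_distrib]
            refine sum_congr rfl fun x _ => ?_
            field_simp
          simp only [this]
          rw [sum_add_distrib, hc]; ring
      _ ≤ s * n ^ 2 / 2 + 1 / (2 * s) * (δ * n ^ 2) := by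
          have := mul_le_mul_of_nonneg_left (kk_total P hS hE) (by positivity : 0 ≤ 1 / (2 * s))
          linarith
      _ ≤ s * n ^ 2 := by
          have h2 : 1 / (2 * s) * (δ * n ^ 2) ≤ 1 / (2 * s) * (s ^ 2 * n ^ 2) :=
            mul_le_mul_of_nonneg_left (mul_le_mul_of_nonneg_right hδs (by positivity))
              (by positivity)
          have h3 : 1 / (2 * s) * (s ^ 2 * n ^ 2) = s * n ^ 2 / 2 := by field_simp
          linarith
  have h2 : ∑ x, |∑ v, b v * (P.g v x - fin_av (cell P S') (P.g v) x)| ≤ s * n ^ 2 := by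
    set F : V → ℝ := fun x => ∑ v, b v * (P.g v x - fin_av (cell P S') (P.g v) x) with hF
    have e1 : ∑ x, F x ^ 2 ≤ s ^ 2 * n ^ 3 := by
      have e2 : ∑ x, F x ^ 2 = ∑ v, ∑ w, b v * b w * ∑ x, aa P S S' v w x := by
        have e3 : ∀ v w : V, ∑ x, aa P S S' v w x = ∑ x,
            (P.g v x - fin_av (cell P S') (P.g v) x) * (P.g w x - fin_av (cell P S') (P.g w) x) :=
          fun v w => fin_sum_av _ _
        simp only [e3, mul_sum]
        rw [sum_congr rfl fun v _ => sum_comm, sum_comm]
        refine sum_congr rfl fun x _ => ?_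
        rw [hF, sq, sum_mul_sum]
        refine sum_congr rfl fun v _ => sum_congr rfl fun w _ => ?_
        ring
      rw [e2]
      calc ∑ v, ∑ w, b v * b w * ∑ x, aa P S S' v w x
          ≤ ∑ v, ∑ w, ∑ x, ((s ^ 2 + aa P S S' v w x ^ 2 / s ^ 2) / 2) := by
            refine sum_le_sum fun v _ => sum_le_sum fun w _ => ?_
            have h3 : 0 ≤ b v * b w := mul_nonneg (hb0 v) (hb0 w)
            have h4 : b v * b w ≤ 1 := by
              have := mul_le_mul (hb1 v) (hb1 w) (hb0 w) zero_le_one
              linarith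
            calc b v * b w * ∑ x, aa P S S' v w x
                ≤ b v * b w * ∑ x, |aa P S S' v w x| :=
                  mul_le_mul_of_nonneg_left (sum_le_sum fun x _ => le_abs_self _) h3
              _ ≤ 1 * ∑ x, |aa P S S' v w x| :=
                  mul_le_mul_of_nonneg_right h4 (sum_nonneg fun x _ => abs_nonneg _)
              _ ≤ _ := by
                  rw [one_mul]
                  exact sum_le_sum fun x _ => amgm (by positivity)
        _ = s ^ 2 * n ^ 3 / 2 + 1 / (2 * s ^ 2) * ∑ u, ∑ v, ∑ x, aa P S S' v u x ^ 2 := by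
            rw [sum_comm, mul_sum]
            have e4 : ∀ u v : V, ∑ x, ((s ^ 2 + aa P S S' v u x ^ 2 / s ^ 2) / 2) =
                n * (s ^ 2 / 2) + 1 / (2 * s ^ 2) * ∑ x, aa P S S' v u x ^ 2 := by
              intro u v
              rw [← hc, mul_sum, ← sum_add_distrib]
              refine sum_congr rfl fun x _ => ?_
              field_simp
            simp only [e4, sum_add_distrib, hc, ← mul_sum]
            ring
        _ ≤ s ^ 2 * n ^ 3 / 2 + 1 / (2 * s ^ 2) * (γ * n ^ 3) := by
            have := mul_le_mul_of_nonneg_left (aa_total P hS hg)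
              (by positivity : 0 ≤ 1 / (2 * s ^ 2))
            linarith
        _ ≤ s ^ 2 * n ^ 3 := by
            have h5 : 1 / (2 * s ^ 2) * (γ * n ^ 3) ≤ 1 / (2 * s ^ 2) * (s ^ 4 * n ^ 3) :=
              mul_le_mul_of_nonneg_left (mul_le_mul_of_nonneg_right hγs (by positivity))
                (by positivity)
            have h6 : 1 / (2 * s ^ 2) * (s ^ 4 * n ^ 3) = s ^ 2 * n ^ 3 / 2 := by field_simp
            linarith
    calc ∑ x, |F x| ≤ ∑ x, ((s * n + F x ^ 2 / (s * n)) / 2) :=
          sum_le_sum fun x _ => amgm (by positivity)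
      _ = s * n ^ 2 / 2 + 1 / (2 * s * n) * ∑ x, F x ^ 2 := by
          have : ∀ x, (s * n + F x ^ 2 / (s * n)) / 2 =
              s * n / 2 + 1 / (2 * s * n) * F x ^ 2 := by
            intro x; field_simp
          simp only [this]
          rw [sum_add_distrib, hc, ← mul_sum]; ring
      _ ≤ s * n ^ 2 / 2 + 1 / (2 * s * n) * (s ^ 2 * n ^ 3) := by
          have := mul_le_mul_of_nonneg_left e1 (by positivity : 0 ≤ 1 / (2 * s * n))
          linarith
      _ = s * n ^ 2 := by field_simp; ring
  have h3 : ∀ x, ∑ v, b v * (P.g v x - fin_av (cell P S) (P.g v) x) =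
      ∑ v, b v * (P.g v x - fin_av (cell P S') (P.g v) x) + ∑ v, b v * kk P S S' v x := by
    intro x
    rw [← sum_add_distrib]
    refine sum_congr rfl fun v _ => ?_
    unfold kk; ring
  calc ∑ x, |∑ v, b v * (P.g v x - fin_av (cell P S) (P.g v) x)|
      ≤ ∑ x, (|∑ v, b v * (P.g v x - fin_av (cell P S') (P.g v) x)| +
          |∑ v, b v * kk P S S' v x|) := by
        refine sum_le_sum fun x _ => ?_
        rw [h3]
        exact abs_add_le _ _
    _ ≤ 2 * s * n ^ 2 := by
        rw [sum_add_distrib]; linarith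

end

end Pool.Agent.Helper65.Sf
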