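import Mathlib
import Pool.Agent.Helper65.Sf.Cov

/-!
# The tournament inequality in the classes
-/

set_option linter.all false
set_option autoImplicit false

namespace Pool.Agent.Helper65.Sf

open Finset Pool.Agent.Helper71.QU

section

variable {V : Type*} [Fintype V] [DecidableEq V] (P : PS V)

/-- The cell averages of the neighbourhoods. -/
noncomputable def bg (S : Finset V) (x v : V) : ℝ := fin_av (cell P S) (P.g v) x

/-- The cell averages of the degrees. -/
noncomputable def bd (S : Finset V) (x : V) : ℝ := ∑ v, bg P S x v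

lemma bg0 (S : Finset V) (x v : V) : 0 ≤ bg P S x v := av0 P S v x

lemma bg1 (S : Finset V) (x v : V) : bg P S x v ≤ 1 := av1 P S v x

lemma bd0 (S : Finset V) (x : V) : 0 ≤ bd P S x := sum_nonneg fun v _ => bg0 P S x v

lemma bd1 (S : Finset V) (x : V) : bd P S x ≤ Fintype.card V := by
  unfold bd
  calc ∑ v, bg P S x v ≤ ∑ v : V, (1 : ℝ) := sum_le_sum fun v _ => bg1 P S x v
    _ = Fintype.card V := by rw [sum_const, card_univ, nsmul_eq_mul, mul_one]

lemma tour (v : V) (X : Finset V) :
    2 * ∑ y ∈ X, ∑ z ∈ X, P.g v y * P.g v z * P.g (P.t v y) z ≤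
      (∑ y ∈ X, P.g v y) ^ 2 + ∑ y ∈ X, P.g v y := by
  have h1 : ∑ y ∈ X, ∑ z ∈ X, P.g v y * P.g v z * P.g (P.t v y) z =
      ∑ y ∈ X, ∑ z ∈ X, P.g v y * P.g v z * P.g (P.t v z) y := by
    rw [sum_comm]
    refine sum_congr rfl fun y _ => sum_congr rfl fun z _ => ?_
    ring
  have h2 : 2 * ∑ y ∈ X, ∑ z ∈ X, P.g v y * P.g v z * P.g (P.t v y) z =
      ∑ y ∈ X, ∑ z ∈ X, P.g v y * P.g v z * (P.g (P.t v y) z + P.g (P.t v z) y) := by
    have : ∑ y ∈ X, ∑ z ∈ X, P.g v y * P.g v z * (P.g (P.t v y) z + P.g (P.t v z) y) =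
        ∑ y ∈ X, ∑ z ∈ X, P.g v y * P.g v z * P.g (P.t v y) z +
        ∑ y ∈ X, ∑ z ∈ X, P.g v y * P.g v z * P.g (P.t v z) y := by
      rw [← sum_add_distrib]
      refine sum_congr rfl fun y _ => ?_
      rw [← sum_add_distrib]
      refine sum_congr rfl fun z _ => ?_
      ring
    rw [this, ← h1]; ring
  rw [h2]
  calc ∑ y ∈ X, ∑ z ∈ X, P.g v y * P.g v z * (P.g (P.t v y) z + P.g (P.t v z) y)
      ≤ ∑ y ∈ X, ∑ z ∈ X, (P.g v y * P.g v z + if z = y then P.g v y else 0) := by
        refine sum_le_sum fun y _ => sum_le_sum fun z _ => ?_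
        rcases P.g01 v y with hy | hy
        · rw [hy]; simp
        rcases P.g01 v z with hz | hz
        · rw [hz]
          have : (0 : ℝ) ≤ if z = y then P.g v y else 0 := by
            split_ifs
            · rw [hy]; norm_num
            · exact le_rfl
          simp only [mul_zero, zero_mul, zero_add]; exact this
        rw [hy, hz]
        by_cases hzy : z = y
        · subst hzy
          have h3 := g1 P (P.t v z) z
          simp only [if_true]
          linarith
        · rw [if_neg hzy]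
          by_cases hzt : z = P.t v y
          · rw [hzt, P.tt, P.gi, P.gi]; norm_num
          · have h3 := P.free v y z hy hz hzy hzt
            have h4 := g0 P y z
            have h5 := g0 P (P.t v y) (P.t v z)
            rw [P.gs (P.t v z) y]
            linarith
    _ = (∑ y ∈ X, P.g v y) ^ 2 + ∑ y ∈ X, P.g v y := by
        simp only [sum_add_distrib]
        rw [sq, sum_mul_sum]
        congr 1
        refine sum_congr rfl fun y hy => ?_
        rw [sum_ite_eq' X y]
        rw [if_pos hy]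

/-- The inequality for one point and one class. -/
lemma pv (S : Finset V) {s : ℝ} (hs : 0 < s) (v x : V) :
    fin_av (cell P S) (fun y => P.g v y * bg P S y (P.t v y)) x ≤
      bg P S x v / 2 + 1 / (2 * ((fin_Q (cell P S) x).card : ℝ)) +
        1 / s * fin_av (cell P S) (fun y => P.g v y * |aa P S S v (P.t v y) y|) x + s := by
  have hq := fin_Q_pos (cell P S) x
  set q : ℝ := ((fin_Q (cell P S) x).card : ℝ) with hqd
  set a : ℝ := bg P S x v with ha
  have ha0 : 0 ≤ a := bg0 P S x v
  set ρ : ℝ := fin_av (cell P S) (fun y => P.g v y * |aa P S S v (P.t v y) y|) x with hρ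
  have hρ0 : 0 ≤ ρ := fin_av_nonneg _ (fun y => mul_nonneg (g0 P v y) (abs_nonneg _)) x
  have hq2 : 0 ≤ 1 / (2 * q) := by positivity
  by_cases has : a ≤ s
  · have h1 : fin_av (cell P S) (fun y => P.g v y * bg P S y (P.t v y)) x ≤ a := by
      refine fin_av_mono (cell P S) (fun y => ?_) x
      have h2 := g0 P v y
      have h3 := bg1 P S y (P.t v y)
      have h4 := bg0 P S y (P.t v y)
      nlinarith
    have h2 : 0 ≤ 1 / s * ρ := by positivity
    linarith
  · push Not at has
    have hapos : 0 < a := hs.trans has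
    have h1 : a * fin_av (cell P S) (fun y => P.g v y * bg P S y (P.t v y)) x =
        fin_av (cell P S) (fun y => bg P S y v * (P.g v y * bg P S y (P.t v y))) x := by
      have hm : Meas (cell P S) (fun y => bg P S y v) := meas_av (cell P S) (P.g v)
      rw [av_mul (cell P S) hm]
    have h2 : fin_av (cell P S) (fun y => bg P S y v * (P.g v y * bg P S y (P.t v y))) x ≤
        fin_av (cell P S) (fun y => P.g v y *
          fin_av (cell P S) (fun z => P.g v z * P.g (P.t v y) z) y) x + ρ := by
      rw [hρ, ← fin_av_add]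
      refine fin_av_mono (cell P S) (fun y => ?_) x
      have h3 : aa P S S v (P.t v y) y = fin_av (cell P S) (fun z => P.g v z * P.g (P.t v y) z) y -
          bg P S y v * bg P S y (P.t v y) := cov_eq (cell P S) (P.g v) (P.g (P.t v y)) y
      have h4 := neg_abs_le (aa P S S v (P.t v y) y)
      have h5 := g0 P v y
      have h6 : P.g v y * (bg P S y v * bg P S y (P.t v y)) ≤ P.g v y *
          (fin_av (cell P S) (fun z => P.g v z * P.g (P.t v y) z) y +
            |aa P S S v (P.t v y) y|) :=
        mul_le_mul_of_nonneg_left (by linarith) h5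
      nlinarith
    have h3 : fin_av (cell P S) (fun y => P.g v y *
        fin_av (cell P S) (fun z => P.g v z * P.g (P.t v y) z) y) x =
        (∑ y ∈ fin_Q (cell P S) x, ∑ z ∈ fin_Q (cell P S) x,
          P.g v y * P.g v z * P.g (P.t v y) z) / q ^ 2 := by
      have e1 : ∀ y ∈ fin_Q (cell P S) x, P.g v y *
          fin_av (cell P S) (fun z => P.g v z * P.g (P.t v y) z) y =
          (∑ z ∈ fin_Q (cell P S) x, P.g v y * P.g v z * P.g (P.t v y) z) / q := by
        intro y hy
        unfold fin_av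
        rw [fin_Q_congr (cell P S) ((fin_mem_Q _).1 hy), mul_div_assoc', mul_sum]
        congr 1
        refine sum_congr rfl fun z _ => ?_
        ring
      have e2 : fin_av (cell P S) (fun y => P.g v y *
          fin_av (cell P S) (fun z => P.g v z * P.g (P.t v y) z) y) x =
          (∑ y ∈ fin_Q (cell P S) x, P.g v y *
            fin_av (cell P S) (fun z => P.g v z * P.g (P.t v y) z) y) / q := rfl
      rw [e2, sum_congr rfl e1, ← sum_div, div_div, sq]
    have h4 : ∑ y ∈ fin_Q (cell P S) x, P.g v y = q * a := by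
      rw [ha]; unfold bg fin_av
      rw [mul_div_cancel₀]
      exact hq.ne'
    have h5 := tour P v (fin_Q (cell P S) x)
    rw [h4] at h5
    have h6 : (∑ y ∈ fin_Q (cell P S) x, ∑ z ∈ fin_Q (cell P S) x,
          P.g v y * P.g v z * P.g (P.t v y) z) / q ^ 2 ≤ a ^ 2 / 2 + a / (2 * q) := by
      rw [div_le_iff₀ (by positivity)]
      have e3 : (a ^ 2 / 2 + a / (2 * q)) * q ^ 2 = ((q * a) ^ 2 + q * a) / 2 := by
        field_simp
      rw [e3]; linarith
    have h7 : a * fin_av (cell P S) (fun y => P.g v y * bg P S y (P.t v y)) x ≤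
        a ^ 2 / 2 + a / (2 * q) + ρ := by
      rw [h1]; rw [h3] at h2; linarith
    have h8 : ρ ≤ a * (1 / s * ρ) := by
      have e4 : a * (1 / s * ρ) = a / s * ρ := by ring
      rw [e4]
      have : 1 ≤ a / s := by rw [le_div_iff₀ hs]; linarith
      nlinarith
    have h9 : a * fin_av (cell P S) (fun y => P.g v y * bg P S y (P.t v y)) x ≤
        a * (a / 2 + 1 / (2 * q) + 1 / s * ρ) := by
      have e5 : a * (a / 2 + 1 / (2 * q) + 1 / s * ρ) =
          a ^ 2 / 2 + a / (2 * q) + a * (1 / s * ρ) := by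
        field_simp
      rw [e5]; linarith
    have h10 := le_of_mul_le_mul_left h9 hapos
    linarith

/-- The sum of the squares of the averaged neighbourhood, as an average of sums over pairs. -/
lemma sq_eq (S : Finset V) (x : V) :
    ∑ v, bg P S x v ^ 2 = ∑ v, fin_av (cell P S) (fun y => P.g v y * bg P S y (P.t v y)) x := by
  rw [← fin_av_sum (cell P S) univ (fun v y => P.g v y * bg P S y (P.t v y)) x]
  have h1 : (fun y => ∑ v, P.g v y * bg P S y (P.t v y)) =
      fun y => ∑ v, bg P S y v * P.g v y := by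
    funext y
    have h2 := invol P y (fun w => bg P S y w)
    calc ∑ v, P.g v y * bg P S y (P.t v y) = ∑ v, P.g y v * bg P S y (P.t y v) := by
          refine sum_congr rfl fun v _ => ?_
          rcases P.g01 y v with h | h
          · rw [P.gs v y, h]; ring
          · rw [P.gs v y, P.tc y v h]
      _ = ∑ v, P.g y v * bg P S y v := h2
      _ = _ := by
          refine sum_congr rfl fun v _ => ?_
          rw [P.gs y v]; ring
  rw [h1, fin_av_sum (cell P S) univ (fun v y => bg P S y v * P.g v y) x]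
  refine sum_congr rfl fun v _ => ?_
  have hm : Meas (cell P S) (fun y => bg P S y v) := meas_av (cell P S) (P.g v)
  rw [av_mul (cell P S) hm (P.g v) x]
  show bg P S x v ^ 2 = bg P S x v * bg P S x v
  ring

/-- The main new inequality. -/
lemma S1_bound (hV : 0 < Fintype.card V) (S : Finset V) {s : ℝ} (hs : 0 < s)
    (hR : ∑ x, ∑ v, P.g x v * |aa P S S v (P.t x v) x| ≤ s ^ 2 * (Fintype.card V : ℝ) ^ 2) :
    ∑ x, bd P S x * ∑ v, bg P S x v ^ 2 ≤ (∑ x, bd P S x ^ 2) / 2 +
      2 ^ S.card * (Fintype.card V : ℝ) ^ 2 / 2 + 2 * s * (Fintype.card V : ℝ) ^ 3 := by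
  set n : ℝ := (Fintype.card V : ℝ) with hn
  have hn0 : 0 < n := by rw [hn]; exact_mod_cast hV
  have hc : ∀ c : ℝ, ∑ x : V, c = n * c := by
    intro c; rw [sum_const, card_univ, nsmul_eq_mul]
  have h1 : ∀ x, ∑ v, bg P S x v ^ 2 ≤ bd P S x / 2 +
      n * (1 / 2 * (1 / ((fin_Q (cell P S) x).card : ℝ))) +
      1 / s * ∑ v, fin_av (cell P S) (fun y => P.g v y * |aa P S S v (P.t v y) y|) x + n * s := by
    intro x
    rw [sq_eq]
    calc ∑ v, fin_av (cell P S) (fun y => P.g v y * bg P S y (P.t v y)) x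
        ≤ ∑ v, (bg P S x v / 2 + 1 / 2 * (1 / ((fin_Q (cell P S) x).card : ℝ)) +
          1 / s * fin_av (cell P S) (fun y => P.g v y * |aa P S S v (P.t v y) y|) x + s) := by
          refine sum_le_sum fun v _ => ?_
          have h2 := pv P S hs v x
          have h3 : 1 / (2 * ((fin_Q (cell P S) x).card : ℝ)) =
              1 / 2 * (1 / ((fin_Q (cell P S) x).card : ℝ)) := by
            rw [one_div_mul_one_div]
          rw [h3] at h2
          exact h2
      _ = _ := by
          simp only [sum_add_distrib, hc, ← mul_sum, ← sum_div]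
          rfl
  have h2 : ∑ x, ∑ v, fin_av (cell P S) (fun y => P.g v y * |aa P S S v (P.t v y) y|) x ≤
      s ^ 2 * n ^ 2 := by
    refine le_trans (le_of_eq ?_) hR
    rw [sum_comm]
    have e1 : ∀ v, ∑ x, fin_av (cell P S) (fun y => P.g v y * |aa P S S v (P.t v y) y|) x =
        ∑ x, P.g v x * |aa P S S v (P.t v x) x| := fun v => fin_sum_av _ _
    simp only [e1]
    rw [sum_comm]
    refine sum_congr rfl fun x _ => sum_congr rfl fun v _ => ?_
    rcases P.g01 v x with h | h
    · rw [P.gs x v, h]; ring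
    · rw [P.gs x v, P.tc v x h]
  have h3 : ∀ x, bd P S x * ∑ v, bg P S x v ^ 2 ≤ bd P S x ^ 2 / 2 +
      n * (n * (1 / 2 * (1 / ((fin_Q (cell P S) x).card : ℝ)))) +
      n * (1 / s * ∑ v, fin_av (cell P S)
        (fun y => P.g v y * |aa P S S v (P.t v y) y|) x) + n * (n * s) := by
    intro x
    have b0 := bd0 P S x
    have b1 := bd1 P S x
    have hq := fin_Q_pos (cell P S) x
    have e1 : bd P S x * ∑ v, bg P S x v ^ 2 ≤ bd P S x * (bd P S x / 2 +
      n * (1 / 2 * (1 / ((fin_Q (cell P S) x).card : ℝ))) +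
      1 / s * ∑ v, fin_av (cell P S) (fun y => P.g v y * |aa P S S v (P.t v y) y|) x + n * s) :=
      mul_le_mul_of_nonneg_left (h1 x) b0
    have e2 : bd P S x * (n * (1 / 2 * (1 / ((fin_Q (cell P S) x).card : ℝ))) +
      1 / s * ∑ v, fin_av (cell P S) (fun y => P.g v y * |aa P S S v (P.t v y) y|) x + n * s) ≤
      n * (n * (1 / 2 * (1 / ((fin_Q (cell P S) x).card : ℝ))) +
      1 / s * ∑ v, fin_av (cell P S) (fun y => P.g v y * |aa P S S v (P.t v y) y|) x + n * s) := by
      refine mul_le_mul_of_nonneg_right b1 ?_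
      have e3 : 0 ≤ ∑ v, fin_av (cell P S) (fun y => P.g v y * |aa P S S v (P.t v y) y|) x :=
        sum_nonneg fun v _ => fin_av_nonneg _ (fun y => mul_nonneg (g0 P v y) (abs_nonneg _)) x
      positivity
    nlinarith
  have h4 := fin_sum_inv (cell P S)
  have h5 : (Fintype.card (↥S → Bool) : ℝ) = 2 ^ S.card := by simp
  rw [h5] at h4
  calc ∑ x, bd P S x * ∑ v, bg P S x v ^ 2
      ≤ ∑ x, (bd P S x ^ 2 / 2 +
      n * (n * (1 / 2 * (1 / ((fin_Q (cell P S) x).card : ℝ)))) +
      n * (1 / s * ∑ v, fin_av (cell P S)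
        (fun y => P.g v y * |aa P S S v (P.t v y) y|) x) + n * (n * s)) :=
        sum_le_sum fun x _ => h3 x
    _ = (∑ x, bd P S x ^ 2) / 2 + n * (n * (1 / 2 * ∑ x, 1 / ((fin_Q (cell P S) x).card : ℝ))) +
        n * (1 / s * ∑ x, ∑ v, fin_av (cell P S)
          (fun y => P.g v y * |aa P S S v (P.t v y) y|) x) + n * (n * (n * s)) := by
        simp only [sum_add_distrib, hc, ← mul_sum, ← sum_div]
    _ ≤ (∑ x, bd P S x ^ 2) / 2 + n * (n * (1 / 2 * 2 ^ S.card)) +
        n * (1 / s * (s ^ 2 * n ^ 2)) + n * (n * (n * s)) := by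
        have e1 : n * (n * (1 / 2 * ∑ x, 1 / ((fin_Q (cell P S) x).card : ℝ))) ≤
            n * (n * (1 / 2 * 2 ^ S.card)) :=
          mul_le_mul_of_nonneg_left (mul_le_mul_of_nonneg_left
            (mul_le_mul_of_nonneg_left h4 (by norm_num)) hn0.le) hn0.le
        have e2 : n * (1 / s * ∑ x, ∑ v, fin_av (cell P S)
          (fun y => P.g v y * |aa P S S v (P.t v y) y|) x) ≤ n * (1 / s * (s ^ 2 * n ^ 2)) :=
          mul_le_mul_of_nonneg_left (mul_le_mul_of_nonneg_left h2 (by positivity)) hn0.le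
        linarith
    _ = _ := by
        have e3 : 1 / s * (s ^ 2 * n ^ 2) = s * n ^ 2 := by field_simp
        rw [e3]; ring

end

end Pool.Agent.Helper65.Sf
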