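import Mathlib
import Pool.Agent.Helper65.Sf.Tour

/-!
# The density bound for partial triple systems
-/

set_option linter.all false
set_option autoImplicit false

namespace Pool.Agent.Helper65.Sf

open Finset Pool.Agent.Helper71.QU

section

variable {V : Type*} [Fintype V] [DecidableEq V] (P : PS V)

/-- The degree in the shadow graph. -/
noncomputable def dd (x : V) : ℝ := ∑ v, P.g v x

lemma dd' (x : V) : dd P x = ∑ v, P.g x v := by
  unfold dd
  exact sum_congr rfl fun v _ => P.gs v x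

lemma dd0 (x : V) : 0 ≤ dd P x := sum_nonneg fun v _ => g0 P v x

lemma dd1 (x : V) : dd P x ≤ Fintype.card V := by
  unfold dd
  calc ∑ v, P.g v x ≤ ∑ v : V, (1 : ℝ) := sum_le_sum fun v _ => g1 P v x
    _ = Fintype.card V := by rw [sum_const, card_univ, nsmul_eq_mul, mul_one]

lemma bd_av (S : Finset V) (x : V) : bd P S x = fin_av (cell P S) (dd P) x := by
  unfold bd bg
  exact (fin_av_sum (cell P S) univ (fun v y => P.g v y) x).symm

/-- Triangles of the shadow graph at one point. -/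
lemma tri (v : V) : ∑ y, ∑ z, P.g v y * P.g v z * P.g y z ≤ dd P v ^ 2 / 4 + dd P v / 2 := by
  set T : ℝ := ∑ y, ∑ z, P.g v y * P.g v z * P.g y z with hT
  have a1 : ∀ F : V → V → ℝ, ∑ y, ∑ z, P.g v y * P.g v z * F y z =
      ∑ y, P.g v y * ∑ z, P.g v z * F y z := by
    intro F
    refine sum_congr rfl fun y _ => ?_
    rw [mul_sum]
    exact sum_congr rfl fun z _ => by ring
  have h1 : ∑ y, ∑ z, P.g v y * P.g v z * P.g y (P.t v z) = T := by
    rw [hT, a1 (fun y z => P.g y (P.t v z)), a1 (fun y z => P.g y z)]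
    refine sum_congr rfl fun y _ => ?_
    rw [invol P v (fun w => P.g y w)]
  have h2 : ∑ y, ∑ z, P.g v y * P.g v z * P.g (P.t v y) z = T := by
    rw [hT, a1 (fun y z => P.g (P.t v y) z), a1 (fun y z => P.g y z)]
    exact invol P v (fun w => ∑ z, P.g v z * P.g w z)
  have h3 : ∑ y, ∑ z, P.g v y * P.g v z * P.g (P.t v y) (P.t v z) = T := by
    rw [hT, a1 (fun y z => P.g (P.t v y) (P.t v z)), a1 (fun y z => P.g y z)]
    have e1 : ∀ y, ∑ z, P.g v z * P.g (P.t v y) (P.t v z) = ∑ z, P.g v z * P.g (P.t v y) z :=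
      fun y => invol P v (fun w => P.g (P.t v y) w)
    simp only [e1]
    exact invol P v (fun w => ∑ z, P.g v z * P.g w z)
  have h4 : 4 * T = ∑ y, ∑ z, P.g v y * P.g v z *
      (P.g y z + P.g y (P.t v z) + P.g (P.t v y) z + P.g (P.t v y) (P.t v z)) := by
    have : ∑ y, ∑ z, P.g v y * P.g v z *
      (P.g y z + P.g y (P.t v z) + P.g (P.t v y) z + P.g (P.t v y) (P.t v z)) =
      ∑ y, ∑ z, P.g v y * P.g v z * P.g y z +
      ∑ y, ∑ z, P.g v y * P.g v z * P.g y (P.t v z) +
      ∑ y, ∑ z, P.g v y * P.g v z * P.g (P.t v y) z +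
      ∑ y, ∑ z, P.g v y * P.g v z * P.g (P.t v y) (P.t v z) := by
      simp only [← sum_add_distrib]
      refine sum_congr rfl fun y _ => sum_congr rfl fun z _ => ?_
      ring
    rw [this, h1, h2, h3, ← hT]; ring
  have h5 : 4 * T ≤ ∑ y, ∑ z, (P.g v y * P.g v z + (if z = y then P.g v y else 0) +
      (if z = P.t v y then P.g v y else 0)) := by
    rw [h4]
    refine sum_le_sum fun y _ => sum_le_sum fun z _ => ?_
    have i1 : (0 : ℝ) ≤ if z = y then P.g v y else 0 := by
      split_ifs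
      · exact g0 P v y
      · exact le_rfl
    have i2 : (0 : ℝ) ≤ if z = P.t v y then P.g v y else 0 := by
      split_ifs
      · exact g0 P v y
      · exact le_rfl
    rcases P.g01 v y with hy | hy
    · rw [hy] at i1 i2 ⊢
      simp only [zero_mul, zero_add]
      linarith
    rcases P.g01 v z with hz | hz
    · rw [hz]
      simp only [mul_zero, zero_mul, zero_add]
      linarith
    by_cases hzy : z = y
    · subst hzy
      have u1 := g1 P z (P.t v z)
      have u2 := g1 P (P.t v z) z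
      rw [P.gi, P.gi, hz]
      simp only [if_true]
      rw [hz] at i2
      linarith
    by_cases hzt : z = P.t v y
    · subst hzt
      have u1 := g1 P y (P.t v y)
      have u2 := g1 P (P.t v y) y
      rw [P.tt, P.gi, P.gi, hy, hz]
      simp only [if_true]
      rw [hy] at i1
      linarith
    · have := P.free v y z hy hz hzy hzt
      rw [hy, hz, if_neg hzy, if_neg hzt]
      linarith
  have h6 : ∑ y, ∑ z, (P.g v y * P.g v z + (if z = y then P.g v y else 0) +
      (if z = P.t v y then P.g v y else 0)) = dd P v ^ 2 + 2 * dd P v := by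
    simp only [sum_add_distrib]
    rw [dd', sq, sum_mul_sum]
    have e1 : ∀ y : V, ∑ z, (if z = y then P.g v y else 0) = P.g v y := by
      intro y; rw [sum_ite_eq' univ y]; simp
    have e2 : ∀ y : V, ∑ z, (if z = P.t v y then P.g v y else 0) = P.g v y := by
      intro y
      rw [sum_ite_eq' univ (P.t v y) (fun _ => P.g v y)]; simp
    simp only [e1, e2]
    ring
  rw [h6] at h5
  linarith

/-- The sum over the pairs of adjacent points, of the averaged codegrees. -/
noncomputable def S2 (S : Finset V) : ℝ :=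
  ∑ x, ∑ y, P.g x y * ∑ v, bg P S x v * bg P S y v

/-- The sum over the points, weighted by the degrees, of the norms of the averaged
neighbourhoods. -/
noncomputable def S1 (S : Finset V) : ℝ := ∑ x, dd P x * ∑ v, bg P S x v ^ 2

lemma S1_eq (S : Finset V) : S1 P S = ∑ x, bd P S x * ∑ v, bg P S x v ^ 2 := by
  unfold S1
  have hm : Meas (cell P S) (fun x => ∑ v, bg P S x v ^ 2) := by
    intro x y hxy
    refine sum_congr rfl fun v _ => ?_
    have : bg P S x v = bg P S y v := meas_av (cell P S) (P.g v) x y hxy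
    rw [this]
  have h1 := fin_av_symm (cell P S) (dd P) (fun x => ∑ v, bg P S x v ^ 2)
  have h2 : ∀ x, fin_av (cell P S) (fun x => ∑ v, bg P S x v ^ 2) x = ∑ v, bg P S x v ^ 2 :=
    fun x => av_meas (cell P S) hm x
  simp only [h2] at h1
  rw [← h1]
  exact sum_congr rfl fun x _ => by rw [bd_av]

/-- The Cauchy-Schwarz step. -/
lemma CS (S : Finset V) :
    3 * (∑ x, bd P S x ^ 2) ^ 2 ≤
      (∑ x, ∑ y, P.g x y) * (Fintype.card V : ℝ) * (S1 P S + 2 * S2 P S) := by
  set n : ℝ := (Fintype.card V : ℝ) with hn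
  set Z : ℝ := ∑ x, bd P S x ^ 2 with hZ
  have hZ1 : ∑ x, dd P x * bd P S x = Z := by
    rw [hZ]
    have h1 := fin_sum_av_sq (cell P S) (dd P)
    have h2 : ∀ x, fin_av (cell P S) (dd P) x = bd P S x := fun x => (bd_av P S x).symm
    simp only [h2] at h1
    exact h1.symm
  have sx : ∀ F : V → ℝ, ∑ x, ∑ y, P.g x y * F x = ∑ x, dd P x * F x := by
    intro F
    refine sum_congr rfl fun x _ => ?_
    rw [dd', sum_mul]
  have sy : ∀ F : V → ℝ, ∑ x, ∑ y, P.g x y * F y = ∑ x, dd P x * F x := by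
    intro F
    rw [sum_comm]
    refine sum_congr rfl fun x _ => ?_
    unfold dd
    rw [sum_mul]
  have st : ∀ F : V → ℝ, ∑ x, ∑ y, P.g x y * F (P.t x y) = ∑ x, dd P x * F x := by
    intro F
    rw [← sy]
    exact sum_congr rfl fun x _ => invol P x F
  have h1 : ∑ x, ∑ y, P.g x y * (bd P S x + bd P S y + bd P S (P.t x y)) = 3 * Z := by
    have : ∑ x, ∑ y, P.g x y * (bd P S x + bd P S y + bd P S (P.t x y)) =
        ∑ x, ∑ y, P.g x y * bd P S x + ∑ x, ∑ y, P.g x y * bd P S y +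
        ∑ x, ∑ y, P.g x y * bd P S (P.t x y) := by
      simp only [← sum_add_distrib]
      refine sum_congr rfl fun x _ => sum_congr rfl fun y _ => ?_
      ring
    rw [this, sx, sy, st, hZ1]; ring
  have h2 : (3 * Z) ^ 2 ≤ (∑ x, ∑ y, P.g x y) *
      ∑ x, ∑ y, P.g x y * (bd P S x + bd P S y + bd P S (P.t x y)) ^ 2 := by
    have c := sum_mul_sq_le_sq_mul_sq (univ : Finset (V × V)) (fun p => P.g p.1 p.2)
      (fun p => P.g p.1 p.2 * (bd P S p.1 + bd P S p.2 + bd P S (P.t p.1 p.2)))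
    have g2 : ∀ x y, P.g x y * P.g x y = P.g x y := by
      intro x y
      rcases P.g01 x y with h | h <;> rw [h] <;> norm_num
    have e1 : ∑ p : V × V, P.g p.1 p.2 *
        (P.g p.1 p.2 * (bd P S p.1 + bd P S p.2 + bd P S (P.t p.1 p.2))) = 3 * Z := by
      rw [← h1, ← Fintype.sum_prod_type' (fun x y => P.g x y *
        (bd P S x + bd P S y + bd P S (P.t x y)))]
      refine sum_congr rfl fun p _ => ?_
      rw [← mul_assoc, g2]
    have e2 : ∑ p : V × V, P.g p.1 p.2 ^ 2 = ∑ x, ∑ y, P.g x y := by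
      rw [← Fintype.sum_prod_type' (fun x y => P.g x y)]
      refine sum_congr rfl fun p _ => ?_
      rw [sq, g2]
    have e3 : ∑ p : V × V, (P.g p.1 p.2 *
        (bd P S p.1 + bd P S p.2 + bd P S (P.t p.1 p.2))) ^ 2 =
        ∑ x, ∑ y, P.g x y * (bd P S x + bd P S y + bd P S (P.t x y)) ^ 2 := by
      rw [← Fintype.sum_prod_type' (fun x y => P.g x y *
        (bd P S x + bd P S y + bd P S (P.t x y)) ^ 2)]
      refine sum_congr rfl fun p _ => ?_
      rw [mul_pow, sq (P.g p.1 p.2), g2]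
    rw [e1, e2, e3] at c
    exact c
  have h3 : ∑ x, ∑ y, P.g x y * (bd P S x + bd P S y + bd P S (P.t x y)) ^ 2 ≤
      n * (3 * S1 P S + 6 * S2 P S) := by
    have e0 : ∀ x y, P.g x y * (bd P S x + bd P S y + bd P S (P.t x y)) ^ 2 ≤
        n * (P.g x y * ∑ v, (bg P S x v + bg P S y v + bg P S (P.t x y) v) ^ 2) := by
      intro x y
      have e1 : bd P S x + bd P S y + bd P S (P.t x y) =
          ∑ v, (bg P S x v + bg P S y v + bg P S (P.t x y) v) := by
        unfold bd
        rw [← sum_add_distrib, ← sum_add_distrib]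
      rw [e1]
      have e2 := sq_sum_le_card_mul_sum_sq (s := (univ : Finset V))
        (f := fun v => bg P S x v + bg P S y v + bg P S (P.t x y) v)
      rw [card_univ] at e2
      have e3 := mul_le_mul_of_nonneg_left e2 (g0 P x y)
      refine e3.trans (le_of_eq ?_)
      ring
    have e4 : ∑ x, ∑ y, P.g x y * ∑ v, (bg P S x v + bg P S y v + bg P S (P.t x y) v) ^ 2 =
        3 * S1 P S + 6 * S2 P S := by
      have f1 : ∀ x y, P.g x y * ∑ v, (bg P S x v + bg P S y v + bg P S (P.t x y) v) ^ 2 =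
          P.g x y * ∑ v, bg P S x v ^ 2 + P.g x y * ∑ v, bg P S y v ^ 2 +
          P.g x y * ∑ v, bg P S (P.t x y) v ^ 2 +
          2 * (P.g x y * ∑ v, bg P S x v * bg P S y v) +
          2 * (P.g x y * ∑ v, bg P S x v * bg P S (P.t x y) v) +
          2 * (P.g x y * ∑ v, bg P S y v * bg P S (P.t x y) v) := by
        intro x y
        simp only [mul_sum, ← sum_add_distrib]
        refine sum_congr rfl fun v _ => ?_
        ring
      simp only [f1]
      simp only [sum_add_distrib, ← mul_sum]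
      have f2 : ∑ x, ∑ y, P.g x y * ∑ v, bg P S x v ^ 2 = S1 P S :=
        sx (fun x => ∑ v, bg P S x v ^ 2)
      have f3 : ∑ x, ∑ y, P.g x y * ∑ v, bg P S y v ^ 2 = S1 P S :=
        sy (fun x => ∑ v, bg P S x v ^ 2)
      have f4 : ∑ x, ∑ y, P.g x y * ∑ v, bg P S (P.t x y) v ^ 2 = S1 P S :=
        st (fun x => ∑ v, bg P S x v ^ 2)
      have f5 : ∑ x, ∑ y, P.g x y * ∑ v, bg P S x v * bg P S (P.t x y) v = S2 P S := by
        unfold S2
        exact sum_congr rfl fun x _ => invol P x (fun w => ∑ v, bg P S x v * bg P S w v)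
      have f6 : ∑ x, ∑ y, P.g x y * ∑ v, bg P S y v * bg P S (P.t x y) v = S2 P S := by
        rw [← f5, sum_comm]
        refine sum_congr rfl fun x _ => sum_congr rfl fun y _ => ?_
        rcases P.g01 x y with h | h
        · rw [P.gs y x, h]; ring
        · rw [P.gs y x, P.tc x y h]
      have f7 : ∑ x, ∑ y, P.g x y * ∑ v, bg P S x v * bg P S y v = S2 P S := rfl
      rw [f2, f3, f4, f5, f6, f7]; ring
    rw [← e4, mul_sum]
    refine sum_le_sum fun x _ => ?_
    rw [mul_sum]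
    exact sum_le_sum fun y _ => e0 x y
  have hD : 0 ≤ ∑ x, ∑ y, P.g x y := sum_nonneg fun x _ => sum_nonneg fun y _ => g0 P x y
  have h4 := mul_le_mul_of_nonneg_left h3 hD
  nlinarith

/-- The averaged codegrees are close to the codegrees. -/
lemma S2_bound (hV : 0 < Fintype.card V) {S : Finset V} {s : ℝ} (hs : 0 < s)
    (hW : ∀ b : V → ℝ, (∀ v, 0 ≤ b v) → (∀ v, b v ≤ 1) →
      ∑ x, |∑ v, b v * (P.g v x - fin_av (cell P S) (P.g v) x)| ≤
        2 * s * (Fintype.card V : ℝ) ^ 2) :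
    S2 P S ≤ (∑ x, dd P x ^ 2) / 4 + (∑ x, dd P x) / 2 + 4 * s * (Fintype.card V : ℝ) ^ 3 := by
  set n : ℝ := (Fintype.card V : ℝ) with hn
  have hn0 : 0 < n := by rw [hn]; exact_mod_cast hV
  have hc : ∀ c : ℝ, ∑ x : V, c = n * c := by
    intro c; rw [sum_const, card_univ, nsmul_eq_mul]
  have h1 : ∀ x y, P.g x y * ∑ v, bg P S x v * bg P S y v ≤
      ∑ v, P.g v x * P.g v y * P.g x y +
      |∑ v, P.g y v * (P.g v x - fin_av (cell P S) (P.g v) x)| +
      |∑ v, bg P S x v * (P.g v y - fin_av (cell P S) (P.g v) y)| := by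
    intro x y
    have e1 : ∑ v, bg P S x v * bg P S y v = ∑ v, P.g v x * P.g v y -
        ∑ v, P.g y v * (P.g v x - fin_av (cell P S) (P.g v) x) -
        ∑ v, bg P S x v * (P.g v y - fin_av (cell P S) (P.g v) y) := by
      rw [← sum_sub_distrib, ← sum_sub_distrib]
      refine sum_congr rfl fun v _ => ?_
      rw [P.gs y v]
      unfold bg
      ring
    have e2 : ∑ v, P.g v x * P.g v y * P.g x y = P.g x y * ∑ v, P.g v x * P.g v y := by
      rw [mul_sum]
      exact sum_congr rfl fun v _ => by ring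
    rw [e1, e2]
    have g0' := g0 P x y
    have g1' := g1 P x y
    set A := ∑ v, P.g y v * (P.g v x - fin_av (cell P S) (P.g v) x)
    set B := ∑ v, bg P S x v * (P.g v y - fin_av (cell P S) (P.g v) y)
    have a1 := neg_abs_le A
    have a2 := neg_abs_le B
    have a3 := abs_nonneg A
    have a4 := abs_nonneg B
    have a5 : P.g x y * (-A) ≤ |A| := by
      calc P.g x y * (-A) ≤ P.g x y * |A| := mul_le_mul_of_nonneg_left (by linarith) g0'
        _ ≤ 1 * |A| := mul_le_mul_of_nonneg_right g1' a3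
        _ = |A| := one_mul _
    have a6 : P.g x y * (-B) ≤ |B| := by
      calc P.g x y * (-B) ≤ P.g x y * |B| := mul_le_mul_of_nonneg_left (by linarith) g0'
        _ ≤ 1 * |B| := mul_le_mul_of_nonneg_right g1' a4
        _ = |B| := one_mul _
    nlinarith
  calc S2 P S ≤ ∑ x, ∑ y, (∑ v, P.g v x * P.g v y * P.g x y +
      |∑ v, P.g y v * (P.g v x - fin_av (cell P S) (P.g v) x)| +
      |∑ v, bg P S x v * (P.g v y - fin_av (cell P S) (P.g v) y)|) :=
        sum_le_sum fun x _ => sum_le_sum fun y _ => h1 x y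
    _ = ∑ x, ∑ y, ∑ v, P.g v x * P.g v y * P.g x y +
        ∑ y, ∑ x, |∑ v, P.g y v * (P.g v x - fin_av (cell P S) (P.g v) x)| +
        ∑ x, ∑ y, |∑ v, bg P S x v * (P.g v y - fin_av (cell P S) (P.g v) y)| := by
        rw [sum_comm (s := univ) (t := univ)
          (f := fun y x => |∑ v, P.g y v * (P.g v x - fin_av (cell P S) (P.g v) x)|)]
        simp only [sum_add_distrib]
    _ ≤ ∑ v, (dd P v ^ 2 / 4 + dd P v / 2) + n * (2 * s * n ^ 2) + n * (2 * s * n ^ 2) := by
        have b1 : ∑ x, ∑ y, ∑ v, P.g v x * P.g v y * P.g x y ≤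
            ∑ v, (dd P v ^ 2 / 4 + dd P v / 2) := by
          have : ∑ x, ∑ y, ∑ v, P.g v x * P.g v y * P.g x y =
              ∑ v, ∑ x, ∑ y, P.g v x * P.g v y * P.g x y := by
            rw [sum_congr rfl fun x _ => sum_comm, sum_comm]
          rw [this]
          exact sum_le_sum fun v _ => tri P v
        have b2 : ∑ y, ∑ x, |∑ v, P.g y v * (P.g v x - fin_av (cell P S) (P.g v) x)| ≤
            n * (2 * s * n ^ 2) := by
          rw [← hc]
          exact sum_le_sum fun y _ => hW (fun v => P.g y v) (fun v => g0 P y v)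
            (fun v => g1 P y v)
        have b3 : ∑ x, ∑ y, |∑ v, bg P S x v * (P.g v y - fin_av (cell P S) (P.g v) y)| ≤
            n * (2 * s * n ^ 2) := by
          rw [← hc]
          exact sum_le_sum fun x _ => hW (fun v => bg P S x v) (fun v => bg0 P S x v)
            (fun v => bg1 P S x v)
        linarith
    _ = _ := by
        simp only [sum_add_distrib, ← sum_div]
        ring

/-- The degrees are almost constant on the classes. -/
lemma Z_bound (hV : 0 < Fintype.card V) {S : Finset V} {s : ℝ} (hs : 0 < s)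
    (hW : ∀ b : V → ℝ, (∀ v, 0 ≤ b v) → (∀ v, b v ≤ 1) →
      ∑ x, |∑ v, b v * (P.g v x - fin_av (cell P S) (P.g v) x)| ≤
        2 * s * (Fintype.card V : ℝ) ^ 2) :
    ∑ x, dd P x ^ 2 ≤ ∑ x, bd P S x ^ 2 + 2 * s * (Fintype.card V : ℝ) ^ 3 := by
  set n : ℝ := (Fintype.card V : ℝ) with hn
  have hn0 : 0 < n := by rw [hn]; exact_mod_cast hV
  have h1 := pyth1 (cell P S) (dd P)
  have h2 : ∀ x, fin_av (cell P S) (dd P) x = bd P S x := fun x => (bd_av P S x).symm
  simp only [h2] at h1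
  have h3 := hW (fun _ => 1) (fun _ => zero_le_one) (fun _ => le_rfl)
  have h4 : ∀ x, ∑ v, (1 : ℝ) * (P.g v x - fin_av (cell P S) (P.g v) x) =
      dd P x - bd P S x := by
    intro x
    simp only [one_mul]
    rw [sum_sub_distrib]
    rfl
  simp only [h4] at h3
  have h5 : ∑ x, (dd P x - bd P S x) ^ 2 ≤ n * ∑ x, |dd P x - bd P S x| := by
    rw [mul_sum]
    refine sum_le_sum fun x _ => ?_
    have a1 := dd0 P x
    have a2 := dd1 P x
    have a3 := bd0 P S x
    have a4 := bd1 P S x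
    have a5 : |dd P x - bd P S x| ≤ n := by
      rw [abs_le]; constructor <;> linarith
    rw [← sq_abs, sq]
    exact mul_le_mul_of_nonneg_right a5 (abs_nonneg _)
  have h6 : n * ∑ x, |dd P x - bd P S x| ≤ n * (2 * s * n ^ 2) :=
    mul_le_mul_of_nonneg_left h3 hn0.le
  linarith

lemma num {D Z n s : ℝ} (hn : 0 < n) (hs : 0 < s) (hD0 : 0 ≤ D) (hDZ : D ^ 2 ≤ n * Z)
    (h : 3 * Z ^ 2 ≤ D * n * (Z + 12 * s * n ^ 3)) : D ≤ (1 / 3 + 36 * s) * n ^ 2 := by
  by_contra hc
  push Not at hc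
  have hn2 : 0 < n ^ 2 := by positivity
  have hsn : 0 < s * n ^ 2 := by positivity
  have h1 : n ^ 2 / 3 < D := by nlinarith
  have hD : 0 < D := by nlinarith
  have h2 : n ^ 3 ≤ 9 * Z := by
    have e1 : (n ^ 2 / 3) ^ 2 ≤ D ^ 2 := pow_le_pow_left₀ (by positivity) h1.le 2
    have e2 : n * n ^ 3 ≤ n * (9 * Z) := by nlinarith
    exact le_of_mul_le_mul_left e2 hn
  have hZ : 0 < Z := by
    have : 0 < n ^ 3 := by positivity
    linarith
  have h3 : Z * (3 * Z) ≤ Z * (D * n * (1 + 108 * s)) := by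
    have e1 : D * n * (12 * s * n ^ 3) ≤ D * n * (12 * s * (9 * Z)) := by
      apply mul_le_mul_of_nonneg_left _ (by positivity)
      apply mul_le_mul_of_nonneg_left h2 (by positivity)
    nlinarith
  have h4 := le_of_mul_le_mul_left h3 hZ
  have h5 : D * (3 * D) ≤ D * (n ^ 2 * (1 + 108 * s)) := by nlinarith
  have h6 := le_of_mul_le_mul_left h5 hD
  nlinarith

end

/-- **Density.** -/
theorem density (ε : ℝ) (hε : 0 < ε) : ∃ n₀ : ℕ, ∀ n ≥ n₀, ∀ P : PS (Fin n),
    ∑ x, ∑ y, P.g x y ≤ (1 / 3 + ε) * (n : ℝ) ^ 2 := by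
  set s : ℝ := ε / 36 with hsd
  have hs : 0 < s := by positivity
  set δ : ℝ := s ^ 2 / 2 with hδd
  have hδ : 0 < δ := by positivity
  set γ : ℕ → ℝ := fun m => (s ^ 2 / 2) ^ 2 / 2 ^ m with hγd
  have hγ : ∀ m, 0 < γ m := fun m => by positivity
  set I : ℕ := ⌈1 / δ⌉₊ + 1 with hI
  have hI1 : 1 < (I : ℝ) * δ := by
    have h1 : 1 / δ < (I : ℝ) := by
      rw [hI]; push_cast
      linarith [Nat.le_ceil (1 / δ)]
    rwa [div_lt_iff₀ hδ] at h1
  set K : ℝ := 2 ^ MM γ I with hK
  refine ⟨⌈(K / 2 + 1) / s⌉₊ + 1, ?_⟩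
  intro n hn P
  have hn0 : 0 < n := by omega
  have hnR : (0 : ℝ) < n := by exact_mod_cast hn0
  have hV : 0 < Fintype.card (Fin n) := by rw [Fintype.card_fin]; exact hn0
  have hKn : K / 2 + 1 ≤ s * n := by
    have h1 : (K / 2 + 1) / s ≤ (n : ℝ) := by
      have h2 : ((⌈(K / 2 + 1) / s⌉₊ + 1 : ℕ) : ℝ) ≤ n := by exact_mod_cast hn
      push_cast at h2
      linarith [Nat.le_ceil ((K / 2 + 1) / s)]
    rw [div_le_iff₀ hs] at h1
    linarith
  obtain ⟨i, hi, S, S', hS, hcard, hE, hg⟩ := outer P hV hδ γ hγ I hI1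
  have hle : S.card ≤ MM γ I := hcard.trans (MM_mono γ hi.le)
  have hKS : (2 : ℝ) ^ S.card ≤ K := pow_le_pow_right₀ (by norm_num) hle
  have hKγ : 2 ^ S.card * γ (MM γ i) ≤ (s ^ 2 / 2) ^ 2 := by
    have h1 : (2 : ℝ) ^ S.card ≤ 2 ^ MM γ i := pow_le_pow_right₀ (by norm_num) hcard
    calc (2 : ℝ) ^ S.card * γ (MM γ i) ≤ 2 ^ MM γ i * γ (MM γ i) :=
          mul_le_mul_of_nonneg_right h1 (hγ _).le
      _ = (s ^ 2 / 2) ^ 2 := by
          rw [hγd]; field_simp
  have hγs : γ (MM γ i) ≤ s ^ 4 := by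
    have h1 : (1 : ℝ) ≤ 2 ^ MM γ i := one_le_pow₀ (by norm_num)
    have h2 : γ (MM γ i) ≤ (s ^ 2 / 2) ^ 2 := div_le_self (by positivity) h1
    have h3 : (s ^ 2 / 2) ^ 2 = s ^ 4 / 4 := by ring
    have h4 : 0 ≤ s ^ 4 := by positivity
    linarith
  have hR := R_bound P hV hS (δ := δ) (γ := γ (MM γ i)) (η := s ^ 2 / 2) (by positivity)
    (hγ _).le hKγ hE hg
  have hδη : δ + s ^ 2 / 2 = s ^ 2 := by rw [hδd]; ring
  rw [hδη] at hR
  have hS1 := S1_bound P hV S hs hR
  rw [← S1_eq] at hS1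
  have hδs : δ ≤ s ^ 2 := by
    have : 0 ≤ s ^ 2 := by positivity
    rw [hδd]; linarith
  have hW := fun b hb0 hb1 => W_bound P hV hS hs (hγ (MM γ i)).le hδs hγs hE hg b hb0 hb1
  have hS2 := S2_bound P hV hs hW
  have hZ := Z_bound P hV hs hW
  have hCS := CS P S
  rw [Fintype.card_fin] at hS1 hS2 hZ hCS
  set D : ℝ := ∑ x, ∑ y, P.g x y with hD
  set Z : ℝ := ∑ x, bd P S x ^ 2 with hZd
  have hDd : ∑ x, dd P x = D := by
    rw [hD]; exact sum_congr rfl fun x _ => dd' P x
  have hD0 : 0 ≤ D := sum_nonneg fun x _ => sum_nonneg fun y _ => g0 P x y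
  have hDn : D ≤ (n : ℝ) ^ 2 := by
    rw [← hDd]
    calc ∑ x, dd P x ≤ ∑ x : Fin n, (n : ℝ) := by
          refine sum_le_sum fun x _ => ?_
          have := dd1 P x
          rwa [Fintype.card_fin] at this
      _ = (n : ℝ) ^ 2 := by
          rw [sum_const, card_univ, Fintype.card_fin, nsmul_eq_mul]; ring
  have hbd : ∑ x, bd P S x = D := by
    rw [← hDd]
    have h2 : ∀ x, bd P S x = fin_av (cell P S) (dd P) x := fun x => bd_av P S x
    simp only [h2]
    exact fin_sum_av _ _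
  have hDZ : D ^ 2 ≤ n * Z := by
    have := sq_sum_le_card_mul_sum_sq (s := (univ : Finset (Fin n))) (f := fun x => bd P S x)
    rw [card_univ, Fintype.card_fin, hbd] at this
    exact this
  rw [hDd] at hS2
  have htot : S1 P S + 2 * S2 P S ≤ Z + 12 * s * (n : ℝ) ^ 3 := by
    have h1 : (2 : ℝ) ^ S.card * (n : ℝ) ^ 2 / 2 + (n : ℝ) ^ 2 ≤ s * (n : ℝ) ^ 3 := by
      have h2 : (2 : ℝ) ^ S.card * (n : ℝ) ^ 2 ≤ K * (n : ℝ) ^ 2 :=
        mul_le_mul_of_nonneg_right hKS (by positivity)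
      have h3 : (K / 2 + 1) * (n : ℝ) ^ 2 ≤ s * n * (n : ℝ) ^ 2 :=
        mul_le_mul_of_nonneg_right hKn (by positivity)
      nlinarith
    nlinarith
  have hfin := num (D := D) (Z := Z) (n := n) hnR hs hD0 hDZ
    (hCS.trans (mul_le_mul_of_nonneg_left htot (by positivity)))
  have h36 : 1 / 3 + 36 * s = 1 / 3 + ε := by rw [hsd]; ring
  rw [h36] at hfin
  exact hfin

end Pool.Agent.Helper65.Sf
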