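import Mathlib
import Pool.Agent.Helper65.Sf.Dens

/-!
# From 3-graphs without four edges on seven vertices to partial triple systems
-/

set_option linter.all false
set_option autoImplicit false

namespace Pool.Agent.Helper65.Sf

open Finset

section

variable {n : ℕ}

/-- Four different edges have more than seven vertices together. -/
def Fr (H : Finset (Finset (Fin n))) : Prop :=
  ∀ A ∈ H, ∀ B ∈ H, ∀ C ∈ H, ∀ D ∈ H, A ≠ B → A ≠ C → A ≠ D → B ≠ C → B ≠ D → C ≠ D →
    7 < (A ∪ B ∪ C ∪ D).card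

lemma fr_of {H : Finset (Finset (Fin n))} (hn : 7 ≤ n)
    (h : ∀ S : Finset (Fin n), S.card = 7 → (H.filter (fun A => A ⊆ S)).card ≤ 3) : Fr H := by
  intro A hA B hB C hC D hD h1 h2 h3 h4 h5 h6
  by_contra hc
  push Not at hc
  obtain ⟨S, hS, hS7⟩ := exists_superset_card_eq hc (by rw [Fintype.card_fin]; exact hn)
  have e1 : ({A, B, C, D} : Finset (Finset (Fin n))) ⊆ H.filter (fun A => A ⊆ S) := by
    intro X hX
    simp only [mem_insert, mem_singleton] at hX
    rw [mem_filter]
    rcases hX with rfl | rfl | rfl | rfl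
    · exact ⟨hA, fun z hz => hS (by simp [hz])⟩
    · exact ⟨hB, fun z hz => hS (by simp [hz])⟩
    · exact ⟨hC, fun z hz => hS (by simp [hz])⟩
    · exact ⟨hD, fun z hz => hS (by simp [hz])⟩
  have e2 : ({A, B, C, D} : Finset (Finset (Fin n))).card = 4 := by
    rw [card_insert_of_notMem, card_insert_of_notMem, card_insert_of_notMem, card_singleton]
    · simp [h6]
    · simp [h4, h5]
    · simp [h1, h2, h3]
  have e3 := card_le_card e1
  have e4 := h S hS7
  omega

/-- Some other edge shares at least two points with `A`. -/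
def Bd (H : Finset (Finset (Fin n))) (A : Finset (Fin n)) : Prop :=
  ∃ B ∈ H, B ≠ A ∧ 2 ≤ (A ∩ B).card

open Classical in
/-- The edges sharing at most one vertex with any other edge. -/
noncomputable def lin (H : Finset (Finset (Fin n))) : Finset (Finset (Fin n)) :=
  H.filter (fun A => ¬ Bd H A)

open Classical in
lemma bad_card {H : Finset (Finset (Fin n))} (h3 : ∀ A ∈ H, A.card = 3) (hF : Fr H) :
    H.card ≤ (lin H).card + 5 * n := by
  set Bad : Finset (Finset (Fin n)) := H.filter (fun A => Bd H A) with hBad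
  have hsum : Bad.card + (lin H).card = H.card := by
    rw [hBad, lin]; exact card_filter_add_card_filter_not _
  have hch : ∀ A : Finset (Fin n), ∃ B : Finset (Fin n), A ∈ Bad → B ∈ H ∧ B ≠ A ∧
      2 ≤ (A ∩ B).card := by
    intro A
    by_cases hA : A ∈ Bad
    · rw [hBad, mem_filter] at hA
      obtain ⟨B, hB, h1, h2⟩ := hA.2
      exact ⟨B, fun _ => ⟨hB, h1, h2⟩⟩
    · exact ⟨∅, fun h => absurd h hA⟩
  choose f hf using hch
  have hBH : ∀ A ∈ Bad, A ∈ H := fun A hA => (mem_filter.1 hA).1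
  have hun : ∀ A ∈ Bad, (A ∪ f A).card ≤ 4 := by
    intro A hA
    have e1 := card_union_add_card_inter A (f A)
    have e2 := h3 A (hBH A hA)
    have e3 := h3 (f A) (hf A hA).1
    have e4 := (hf A hA).2.2
    omega
  have hfib : ∀ B : Finset (Fin n), (Bad.filter (fun A => f A = B)).card ≤ 2 := by
    intro B
    by_contra hc
    push Not at hc
    obtain ⟨A1, hA1, A2, hA2, A3, hA3, h12, h13, h23⟩ := two_lt_card.1 hc
    rw [mem_filter] at hA1 hA2 hA3
    have hB1 := hf A1 hA1.1
    have hB2 := hf A2 hA2.1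
    have hB3 := hf A3 hA3.1
    rw [hA1.2] at hB1
    rw [hA2.2] at hB2
    rw [hA3.2] at hB3
    have hlt := hF A1 (hBH _ hA1.1) A2 (hBH _ hA2.1) A3 (hBH _ hA3.1) B hB1.1
      h12 h13 hB1.2.1.symm h23 hB2.2.1.symm hB3.2.1.symm
    have u1 : ∀ A ∈ H, 2 ≤ (A ∩ B).card → (A \ B).card ≤ 1 := by
      intro A hA h2
      have := card_sdiff_add_card_inter A B
      have := h3 A hA
      omega
    have u2 : A1 ∪ A2 ∪ A3 ∪ B ⊆ B ∪ ((A1 \ B) ∪ ((A2 \ B) ∪ (A3 \ B))) := by
      intro z hz
      simp only [mem_union, mem_sdiff] at hz ⊢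
      tauto
    have u3 := card_le_card u2
    have u4 := card_union_le B ((A1 \ B) ∪ ((A2 \ B) ∪ (A3 \ B)))
    have u5 := card_union_le (A1 \ B) ((A2 \ B) ∪ (A3 \ B))
    have u6 := card_union_le (A2 \ B) (A3 \ B)
    have u7 := u1 A1 (hBH _ hA1.1) hB1.2.2
    have u8 := u1 A2 (hBH _ hA2.1) hB2.2.2
    have u9 := u1 A3 (hBH _ hA3.1) hB3.2.2
    have u10 := h3 B hB1.1
    omega
  have hv : ∀ v : Fin n, (Bad.filter (fun A => v ∈ A)).card ≤ 5 := by
    intro v
    rcases (Bad.filter (fun A => v ∈ A)).eq_empty_or_nonempty with h0 | ⟨A0, hA0⟩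
    · rw [h0]; simp
    rw [mem_filter] at hA0
    have hsub : Bad.filter (fun A => v ∈ A) ⊆ {f A0} ∪ (Bad.filter (fun A => f A = A0) ∪
        Bad.filter (fun A => f A = f A0)) := by
      intro A hA
      rw [mem_filter] at hA
      simp only [mem_union, mem_singleton, mem_filter]
      by_contra hc
      push Not at hc
      obtain ⟨c1, c2, c3⟩ := hc
      have c2' := c2 hA.1
      have c3' := c3 hA.1
      have hne : A ≠ A0 := fun h => c3' (by rw [h])
      have hA0f := hf A0 hA0.1
      have hAf := hf A hA.1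
      have hlt := hF A0 (hBH _ hA0.1) (f A0) hA0f.1 A (hBH _ hA.1) (f A) hAf.1
        hA0f.2.1.symm hne.symm (fun h => c2' h.symm) (fun h => c1 h.symm) (fun h => c3' h.symm)
        hAf.2.1.symm
      have w1 : ((A0 ∪ f A0) ∪ (A ∪ f A)).card ≤ 7 := by
        have w2 := card_union_add_card_inter (A0 ∪ f A0) (A ∪ f A)
        have w3 := hun A0 hA0.1
        have w4 := hun A hA.1
        have w5 : 0 < ((A0 ∪ f A0) ∩ (A ∪ f A)).card := card_pos.2 ⟨v, by
          simp [hA0.2, hA.2]⟩
        omega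
      have w6 : A0 ∪ f A0 ∪ A ∪ f A = (A0 ∪ f A0) ∪ (A ∪ f A) := by
        ext z; simp only [mem_union]; tauto
      rw [w6] at hlt
      omega
    have k1 := card_le_card hsub
    have k2 := card_union_le {f A0} (Bad.filter (fun A => f A = A0) ∪
        Bad.filter (fun A => f A = f A0))
    have k3 := card_union_le (Bad.filter (fun A => f A = A0)) (Bad.filter (fun A => f A = f A0))
    have k4 := hfib A0
    have k5 := hfib (f A0)
    rw [card_singleton] at k2
    omega
  have hcount : 3 * Bad.card ≤ 5 * n := by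
    have e1 : ∑ A ∈ Bad, A.card = ∑ v : Fin n, (Bad.filter (fun A => v ∈ A)).card := by
      have : ∀ A ∈ Bad, A.card = ∑ v : Fin n, if v ∈ A then 1 else 0 := by
        intro A _; simp
      rw [sum_congr rfl this, sum_comm]
      refine sum_congr rfl fun v _ => ?_
      rw [card_filter]
    have e2 : ∑ A ∈ Bad, A.card = 3 * Bad.card := by
      rw [sum_congr rfl fun A hA => h3 A (hBH A hA), sum_const, smul_eq_mul, mul_comm]
    have e3 : ∑ v : Fin n, (Bad.filter (fun A => v ∈ A)).card ≤ ∑ v : Fin n, 5 :=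
      sum_le_sum fun v _ => hv v
    rw [sum_const, card_univ, Fintype.card_fin, smul_eq_mul] at e3
    omega
  omega

/-- The triples of `L`. -/
def Tr (L : Finset (Finset (Fin n))) (x y z : Fin n) : Prop :=
  x ≠ y ∧ x ≠ z ∧ y ≠ z ∧ ({x, y, z} : Finset (Fin n)) ∈ L

lemma Tr.swap12 {L : Finset (Finset (Fin n))} {x y z : Fin n} (h : Tr L x y z) : Tr L y x z := by
  refine ⟨h.1.symm, h.2.2.1, h.2.1, ?_⟩
  have : ({y, x, z} : Finset (Fin n)) = {x, y, z} := by ext; simp; tauto
  rw [this]; exact h.2.2.2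

lemma Tr.swap23 {L : Finset (Finset (Fin n))} {x y z : Fin n} (h : Tr L x y z) : Tr L x z y := by
  refine ⟨h.2.1, h.1, h.2.2.1.symm, ?_⟩
  have : ({x, z, y} : Finset (Fin n)) = {x, y, z} := by ext; simp; tauto
  rw [this]; exact h.2.2.2

/-- `L` is linear. -/
def Ln (L : Finset (Finset (Fin n))) : Prop :=
  ∀ A ∈ L, ∀ B ∈ L, ∀ x y, x ≠ y → x ∈ A → y ∈ A → x ∈ B → y ∈ B → A = B

lemma Tr.uniq {L : Finset (Finset (Fin n))} (hL : Ln L) {x y z w : Fin n} (h : Tr L x y z)
    (h' : Tr L x y w) : z = w := by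
  have := hL _ h.2.2.2 _ h'.2.2.2 x y h.1 (by simp) (by simp) (by simp) (by simp)
  have hz : z ∈ ({x, y, w} : Finset (Fin n)) := by rw [← this]; simp
  simp only [mem_insert, mem_singleton] at hz
  rcases hz with hz | hz | hz
  · exact absurd hz.symm h.2.1
  · exact absurd hz.symm h.2.2.1
  · exact hz

open Classical in
/-- The third point. -/
noncomputable def tp (L : Finset (Finset (Fin n))) (x y : Fin n) : Fin n :=
  if h : ∃ z, Tr L x y z then h.choose else y

open Classical in
/-- The adjacency. -/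
noncomputable def gp (L : Finset (Finset (Fin n))) (x y : Fin n) : ℝ :=
  if ∃ z, Tr L x y z then 1 else 0

lemma tp_eq {L : Finset (Finset (Fin n))} (hL : Ln L) {x y z : Fin n} (h : Tr L x y z) :
    tp L x y = z := by
  have hex : ∃ z, Tr L x y z := ⟨z, h⟩
  unfold tp
  rw [dif_pos hex]
  exact Tr.uniq hL hex.choose_spec h

lemma gp_one {L : Finset (Finset (Fin n))} {x y z : Fin n} (h : Tr L x y z) : gp L x y = 1 := by
  unfold gp
  rw [if_pos ⟨z, h⟩]

lemma gp_ex {L : Finset (Finset (Fin n))} {x y : Fin n} (h : gp L x y = 1) :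
    ∃ z, Tr L x y z := by
  unfold gp at h
  by_contra hc
  rw [if_neg hc] at h
  norm_num at h

lemma gp01 (L : Finset (Finset (Fin n))) (x y : Fin n) : gp L x y = 0 ∨ gp L x y = 1 := by
  unfold gp
  split_ifs
  · right; rfl
  · left; rfl

lemma free_two {L : Finset (Finset (Fin n))} (hL : Ln L) (hF : Fr L) {v x u y w : Fin n}
    (h1 : Tr L v x u) (h2 : Tr L v y w) (hxy : x ≠ y) (huy : u ≠ y) (hxw : x ≠ w) (huw : u ≠ w)
    {p q p' q' : Fin n} (hp : p = x ∨ p = u) (hq : q = y ∨ q = w) (hp' : p' = x ∨ p' = u)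
    (hq' : q' = y ∨ q' = w) (hne : p ≠ p' ∨ q ≠ q') (g1 : gp L p q = 1) (g2 : gp L p' q' = 1) :
    False := by
  obtain ⟨a, ha⟩ := gp_ex g1
  obtain ⟨b, hb⟩ := gp_ex g2
  have n1 := h1.1
  have n2 := h1.2.1
  have n3 := h1.2.2.1
  have n4 := h2.1
  have n5 := h2.2.1
  have n6 := h2.2.2.1
  have d12 : ({v, x, u} : Finset (Fin n)) ≠ {v, y, w} := by
    intro h
    have : x ∈ ({v, y, w} : Finset (Fin n)) := by rw [← h]; simp
    simp only [mem_insert, mem_singleton] at this
    rcases this with h | h | h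
    · exact n1 h.symm
    · exact hxy h
    · exact hxw h
  have key1 : ∀ q a : Fin n, (q = y ∨ q = w) → ∀ p, ({v, x, u} : Finset (Fin n)) ≠ {p, q, a} := by
    intro q a hq p h
    have : q ∈ ({v, x, u} : Finset (Fin n)) := by rw [h]; simp
    simp only [mem_insert, mem_singleton] at this
    rcases hq with rfl | rfl
    · rcases this with h | h | h
      · exact n4 h.symm
      · exact hxy h.symm
      · exact huy h.symm
    · rcases this with h | h | h
      · exact n5 h.symm
      · exact hxw h.symm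
      · exact huw h.symm
  have key2 : ∀ p q a : Fin n, (p = x ∨ p = u) → ({v, y, w} : Finset (Fin n)) ≠ {p, q, a} := by
    intro p q a hp h
    have : p ∈ ({v, y, w} : Finset (Fin n)) := by rw [h]; simp
    simp only [mem_insert, mem_singleton] at this
    rcases hp with rfl | rfl
    · rcases this with h | h | h
      · exact n1 h.symm
      · exact hxy h
      · exact hxw h
    · rcases this with h | h | h
      · exact n2 h.symm
      · exact huy h
      · exact huw h
  have d34 : ({p, q, a} : Finset (Fin n)) ≠ {p', q', b} := by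
    intro h
    rcases hne with hne | hne
    · -- both `x` and `u` lie in the edge
      have hx : x ∈ ({p, q, a} : Finset (Fin n)) := by
        rcases hp with rfl | rfl
        · simp
        · rcases hp' with rfl | rfl
          · rw [h]; simp
          · exact absurd rfl hne
      have hu : u ∈ ({p, q, a} : Finset (Fin n)) := by
        rcases hp with rfl | rfl
        · rcases hp' with rfl | rfl
          · exact absurd rfl hne
          · rw [h]; simp
        · simp
      exact key1 q a hq p (hL _ h1.2.2.2 _ ha.2.2.2 x u n3 (by simp) (by simp) hx hu)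
    · have hy : y ∈ ({p, q, a} : Finset (Fin n)) := by
        rcases hq with rfl | rfl
        · simp
        · rcases hq' with rfl | rfl
          · rw [h]; simp
          · exact absurd rfl hne
      have hw : w ∈ ({p, q, a} : Finset (Fin n)) := by
        rcases hq with rfl | rfl
        · rcases hq' with rfl | rfl
          · exact absurd rfl hne
          · rw [h]; simp
        · simp
      exact key2 p q a hp (hL _ h2.2.2.2 _ ha.2.2.2 y w n6 (by simp) (by simp) hy hw)
  have hlt := hF _ h1.2.2.2 _ h2.2.2.2 _ ha.2.2.2 _ hb.2.2.2 d12 (key1 q a hq p)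
    (key1 q' b hq' p') (key2 p q a hp) (key2 p' q' b hp') d34
  have hsub : ({v, x, u} ∪ {v, y, w} ∪ {p, q, a} ∪ {p', q', b} : Finset (Fin n)) ⊆
      {v, x, u, y, w, a, b} := by
    intro z hz
    simp only [mem_union, mem_insert, mem_singleton] at hz ⊢
    rcases hp with rfl | rfl <;> rcases hq with rfl | rfl <;> rcases hp' with rfl | rfl <;>
      rcases hq' with rfl | rfl <;> tauto
  have hc := card_le_card hsub
  have hc7 : ({v, x, u, y, w, a, b} : Finset (Fin n)).card ≤ 7 := by
    have c1 := card_insert_le v ({x, u, y, w, a, b} : Finset (Fin n))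
    have c2 : ({x, u, y, w, a, b} : Finset (Fin n)).card ≤ 6 := card_le_six
    omega
  omega

/-- The partial triple system of a linear 3-graph. -/
noncomputable def mkPS {L : Finset (Finset (Fin n))} (hL : Ln L) (hF : Fr L) : PS (Fin n) where
  g := gp L
  t := tp L
  g01 := gp01 L
  gs := by
    intro x y
    rcases gp01 L x y with h | h
    · rcases gp01 L y x with h' | h'
      · rw [h, h']
      · obtain ⟨z, hz⟩ := gp_ex h'
        rw [gp_one hz.swap12, h']
    · obtain ⟨z, hz⟩ := gp_ex h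
      rw [gp_one hz.swap12, h]
  gi := by
    intro x
    rcases gp01 L x x with h | h
    · exact h
    · obtain ⟨z, hz⟩ := gp_ex h
      exact absurd rfl hz.1
  tt := by
    intro x y
    by_cases h : ∃ z, Tr L x y z
    · obtain ⟨z, hz⟩ := h
      rw [tp_eq hL hz, tp_eq hL hz.swap23]
    · have : tp L x y = y := by unfold tp; rw [dif_neg h]
      rw [this, this]
  gt := by
    intro x y
    by_cases h : ∃ z, Tr L x y z
    · obtain ⟨z, hz⟩ := h
      rw [tp_eq hL hz, gp_one hz.swap23, gp_one hz]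
    · have : tp L x y = y := by unfold tp; rw [dif_neg h]
      rw [this]
  tc := by
    intro x y h
    obtain ⟨z, hz⟩ := gp_ex h
    rw [tp_eq hL hz, tp_eq hL hz.swap12]
  free := by
    intro v x y hx hy hyx hyt
    obtain ⟨u, hu⟩ := gp_ex hx
    obtain ⟨w, hw⟩ := gp_ex hy
    rw [tp_eq hL hu] at hyt
    rw [tp_eq hL hu, tp_eq hL hw]
    have hxy : x ≠ y := fun h => hyx h.symm
    have huy : u ≠ y := fun h => hyt h.symm
    have hxw : x ≠ w := by
      intro h
      have h1 : Tr L v y x := by rw [h]; exact hw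
      exact hyt (Tr.uniq hL h1.swap23 hu)
    have huw : u ≠ w := by
      intro h
      have h1 : Tr L v u y := by rw [h]; exact hw.swap23
      exact hxy (Tr.uniq hL hu.swap23 h1)
    have F := @free_two n L hL hF v x u y w hu hw hxy huy hxw huw
    have F1 : ¬ (gp L x y = 1 ∧ gp L x w = 1) := fun h =>
      F (Or.inl rfl) (Or.inl rfl) (Or.inl rfl) (Or.inr rfl) (Or.inr hw.2.2.1) h.1 h.2
    have F2 : ¬ (gp L x y = 1 ∧ gp L u y = 1) := fun h =>
      F (Or.inl rfl) (Or.inl rfl) (Or.inr rfl) (Or.inl rfl) (Or.inl hu.2.2.1) h.1 h.2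
    have F3 : ¬ (gp L x y = 1 ∧ gp L u w = 1) := fun h =>
      F (Or.inl rfl) (Or.inl rfl) (Or.inr rfl) (Or.inr rfl) (Or.inl hu.2.2.1) h.1 h.2
    have F4 : ¬ (gp L x w = 1 ∧ gp L u y = 1) := fun h =>
      F (Or.inl rfl) (Or.inr rfl) (Or.inr rfl) (Or.inl rfl) (Or.inl hu.2.2.1) h.1 h.2
    have F5 : ¬ (gp L x w = 1 ∧ gp L u w = 1) := fun h =>
      F (Or.inl rfl) (Or.inr rfl) (Or.inr rfl) (Or.inr rfl) (Or.inl hu.2.2.1) h.1 h.2
    have F6 : ¬ (gp L u y = 1 ∧ gp L u w = 1) := fun h =>
      F (Or.inr rfl) (Or.inl rfl) (Or.inr rfl) (Or.inr rfl) (Or.inr hw.2.2.1) h.1 h.2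
    rcases gp01 L x y with a1 | a1 <;> rcases gp01 L x w with a2 | a2 <;>
      rcases gp01 L u y with a3 | a3 <;> rcases gp01 L u w with a4 | a4 <;>
      first
        | linarith
        | exact (F1 ⟨a1, a2⟩).elim
        | exact (F2 ⟨a1, a3⟩).elim
        | exact (F3 ⟨a1, a4⟩).elim
        | exact (F4 ⟨a2, a3⟩).elim
        | exact (F5 ⟨a2, a4⟩).elim
        | exact (F6 ⟨a3, a4⟩).elim

lemma count {L : Finset (Finset (Fin n))} (h3 : ∀ A ∈ L, A.card = 3) (hL : Ln L) (hF : Fr L) :
    6 * (L.card : ℝ) ≤ ∑ x, ∑ y, (mkPS hL hF).g x y := by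
  classical
  have h1 : ∑ x, ∑ y, (mkPS hL hF).g x y =
      (((univ : Finset (Fin n × Fin n)).filter (fun p => ∃ z, Tr L p.1 p.2 z)).card : ℝ) := by
    rw [← Fintype.sum_prod_type' (fun x y => (mkPS hL hF).g x y), card_filter]
    push_cast
    refine sum_congr rfl fun p _ => ?_
    show gp L p.1 p.2 = _
    unfold gp
    rfl
  have h2 : (L.biUnion fun A => A.offDiag) ⊆
      (univ : Finset (Fin n × Fin n)).filter (fun p => ∃ z, Tr L p.1 p.2 z) := by
    intro p hp
    rw [mem_biUnion] at hp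
    obtain ⟨A, hA, hpA⟩ := hp
    rw [mem_offDiag] at hpA
    obtain ⟨hp1, hp2, hp12⟩ := hpA
    rw [mem_filter]
    refine ⟨mem_univ _, ?_⟩
    have hsub : ({p.1, p.2} : Finset (Fin n)) ⊆ A := by
      intro z hz
      simp only [mem_insert, mem_singleton] at hz
      rcases hz with rfl | rfl
      · exact hp1
      · exact hp2
    have hc : ({p.1, p.2} : Finset (Fin n)).card = 2 := card_pair hp12
    have hd : (A \ {p.1, p.2}).card = 1 := by
      rw [card_sdiff_of_subset hsub, hc, h3 A hA]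
    obtain ⟨z, hz⟩ := card_eq_one.1 hd
    have hzA : z ∈ A \ {p.1, p.2} := by rw [hz]; simp
    simp only [mem_sdiff, mem_insert, mem_singleton, not_or] at hzA
    refine ⟨z, hp12, fun h => hzA.2.1 h.symm, fun h => hzA.2.2 h.symm, ?_⟩
    have : ({p.1, p.2, z} : Finset (Fin n)) = A := by
      have e1 : A = {p.1, p.2} ∪ (A \ {p.1, p.2}) := (union_sdiff_of_subset hsub).symm
      rw [e1, hz]
      ext w; simp only [mem_insert, mem_singleton, mem_union]; tauto
    rw [this]; exact hA
  have h4 : (L.biUnion fun A => A.offDiag).card = 6 * L.card := by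
    rw [card_biUnion]
    · have : ∀ A ∈ L, (A.offDiag).card = 6 := by
        intro A hA
        rw [offDiag_card, h3 A hA]
      rw [sum_congr rfl this, sum_const, smul_eq_mul, mul_comm]
    · intro A hA B hB hAB
      show Disjoint (A.offDiag) (B.offDiag)
      rw [disjoint_left]
      intro p hp hp'
      rw [mem_offDiag] at hp hp'
      exact hAB (hL A hA B hB p.1 p.2 hp.2.2 hp.1 hp.2.1 hp'.1 hp'.2.1)
  have h5 := card_le_card h2
  rw [h4] at h5
  rw [h1]
  exact_mod_cast h5

end

/-- **Every large 3-graph in which seven vertices never span four edges has at most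
`(1/18 + ε) n²` edges.** -/
theorem main (ε : ℝ) (hε : 0 < ε) : ∃ N : ℕ, ∀ n ≥ N, ∀ H : Finset (Finset (Fin n)),
    (∀ A ∈ H, A.card = 3) →
    (∀ S : Finset (Fin n), S.card = 7 → (H.filter (fun A => A ⊆ S)).card ≤ 3) →
    (H.card : ℝ) ≤ (1 / 18 + ε) * (n : ℝ) ^ 2 := by
  obtain ⟨n₀, hn₀⟩ := density (3 * ε) (by positivity)
  refine ⟨max (max n₀ 7) (⌈10 / ε⌉₊ + 1), ?_⟩
  intro n hn H h3 h7
  have hn1 : n₀ ≤ n := le_trans (le_trans (le_max_left _ _) (le_max_left _ _)) hn
  have hn2 : 7 ≤ n := le_trans (le_trans (le_max_right _ _) (le_max_left _ _)) hn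
  have hn3 : ⌈10 / ε⌉₊ + 1 ≤ n := le_trans (le_max_right _ _) hn
  have hnR : (0 : ℝ) < n := by
    have : 0 < n := by omega
    exact_mod_cast this
  have hF := fr_of hn2 h7
  have hbad := bad_card h3 hF
  have hsub : lin H ⊆ H := by
    classical
    unfold lin
    exact filter_subset _ _
  have hF' : Fr (lin H) := fun A hA B hB C hC D hD =>
    hF A (hsub hA) B (hsub hB) C (hsub hC) D (hsub hD)
  have hL : Ln (lin H) := by
    classical
    intro A hA B hB x y hxy hxA hyA hxB hyB
    by_contra hne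
    have hA' := hA
    unfold lin at hA'
    rw [mem_filter] at hA'
    apply hA'.2
    refine ⟨B, hsub hB, fun h => hne h.symm, ?_⟩
    have : ({x, y} : Finset (Fin n)) ⊆ A ∩ B := by
      intro z hz
      simp only [mem_insert, mem_singleton] at hz
      rcases hz with rfl | rfl
      · exact mem_inter.2 ⟨hxA, hxB⟩
      · exact mem_inter.2 ⟨hyA, hyB⟩
    have h2 := card_le_card this
    rw [card_pair hxy] at h2
    exact h2
  have hc := count (fun A hA => h3 A (hsub hA)) hL hF'
  have hd := hn₀ n hn1 (mkPS hL hF')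
  have hbadR : (H.card : ℝ) ≤ (lin H).card + 5 * n := by exact_mod_cast hbad
  have h10 : 10 ≤ ε * n := by
    have h1 : 10 / ε ≤ (n : ℝ) := by
      have h2 : ((⌈10 / ε⌉₊ + 1 : ℕ) : ℝ) ≤ n := by exact_mod_cast hn3
      push_cast at h2
      linarith [Nat.le_ceil (10 / ε)]
    rw [div_le_iff₀ hε] at h1
    linarith
  have h5 : 5 * (n : ℝ) ≤ ε / 2 * (n : ℝ) ^ 2 := by nlinarith
  nlinarith

end Pool.Agent.Helper65.Sf
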